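import Pool.Agent.N659.HB.Stm5

/-!
Scaling of the variance of `cay`.
-/

namespace Pool.Agent.U281.NP.Vrs

open MeasureTheory Filter Set
open scoped Topology ComplexConjugate
open Pool.Agent.W792.WA Pool.Agent.W792.LL

noncomputable section

theorem cay_sub (x y : ℝ) :
    ‖cay x - cay y‖ ^ 2 = 4 * (x - y) ^ 2 / ((1 + x ^ 2) * (1 + y ^ 2)) := by
  have hx : (x : ℂ) - Complex.I ≠ 0 := by
    intro h
    have := congrArg Complex.im h
    simp at this
  have hy : (y : ℂ) - Complex.I ≠ 0 := by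
    intro h
    have := congrArg Complex.im h
    simp at this
  have h1 : cay x - cay y = 2 * Complex.I * (y - x) / ((x - Complex.I) * (y - Complex.I)) := by
    unfold cay
    rw [div_sub_div _ _ hx hy]
    congr 1
    ring
  have n1 : ∀ t : ℝ, ‖(t : ℂ) - Complex.I‖ ^ 2 = 1 + t ^ 2 := by
    intro t
    rw [Complex.sq_norm, Complex.normSq_apply]
    simp
    ring
  rw [h1, norm_div, norm_mul, norm_mul, norm_mul, Complex.norm_I, mul_one, div_pow, mul_pow,
    mul_pow, n1, n1]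
  have h2 : ‖(y : ℂ) - x‖ ^ 2 = (x - y) ^ 2 := by
    rw [← Complex.ofReal_sub, Complex.norm_real, Real.norm_eq_abs, sq_abs]
    ring
  rw [h2]
  norm_num

theorem vr_eq (hCay : S_CAY) (ν : Measure ℝ) [IsProbabilityMeasure ν] :
    vr ν = 1 / 2 * ∫ p : ℝ × ℝ, ‖cay p.1 - cay p.2‖ ^ 2 ∂(ν.prod ν) := by
  have hc : Continuous cay := hCay.2.1
  have hn := hCay.1
  have h1 : ∀ p : ℝ × ℝ, ‖cay p.1 - cay p.2‖ ^ 2 = 2 - 2 * (cay p.1 * conj (cay p.2)).re := by
    intro p
    have e1 : ‖cay p.1 - cay p.2‖ ^ 2 = ‖cay p.1‖ ^ 2 + ‖cay p.2‖ ^ 2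
        - 2 * (cay p.1 * conj (cay p.2)).re := by
      rw [Complex.sq_norm, Complex.sq_norm, Complex.sq_norm, Complex.normSq_sub]
    rw [e1, hn, hn]
    ring
  have i1 : Integrable (fun p : ℝ × ℝ => cay p.1 * conj (cay p.2)) (ν.prod ν) := by
    refine Integrable.of_bound (Continuous.aestronglyMeasurable ?_) 1 (ae_of_all _ fun p => ?_)
    · exact (hc.comp continuous_fst).mul (Complex.continuous_conj.comp (hc.comp continuous_snd))
    · rw [norm_mul, RCLike.norm_conj, hn, hn, one_mul]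
  have h2 : ∫ p : ℝ × ℝ, cay p.1 * conj (cay p.2) ∂(ν.prod ν)
      = ((‖∫ x, cay x ∂ν‖ ^ 2 : ℝ) : ℂ) := by
    rw [integral_prod_mul (fun x => cay x) (fun y => conj (cay y)), integral_conj,
      Complex.mul_conj, Complex.normSq_eq_norm_sq]
  have h3 : ∫ p : ℝ × ℝ, (cay p.1 * conj (cay p.2)).re ∂(ν.prod ν) = ‖∫ x, cay x ∂ν‖ ^ 2 := by
    have := congrArg Complex.re h2
    rw [Complex.ofReal_re] at this
    rw [← this]
    exact integral_re i1
  simp_rw [h1]
  have i2 : Integrable (fun p : ℝ × ℝ => (cay p.1 * conj (cay p.2)).re) (ν.prod ν) := i1.re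
  rw [integral_sub (integrable_const _) (i2.const_mul 2), integral_const_mul, h3]
  unfold vr
  simp
  ring

theorem ratio (α x : ℝ) (hα : α ≠ 0) : min 1 (1 / α ^ 2) * (1 + α ^ 2 * x ^ 2) ≤ 1 + x ^ 2 := by
  have h1 : min 1 (1 / α ^ 2) ≤ 1 := min_le_left _ _
  have h2 : min 1 (1 / α ^ 2) * α ^ 2 ≤ 1 := by
    calc min 1 (1 / α ^ 2) * α ^ 2 ≤ 1 / α ^ 2 * α ^ 2 :=
          mul_le_mul_of_nonneg_right (min_le_right _ _) (by positivity)
      _ = 1 := by field_simp
  nlinarith [sq_nonneg x]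

theorem main' (hCay : S_CAY) (ν : Measure ℝ) [IsProbabilityMeasure ν] (α : ℝ) (hα : α ≠ 0) :
    min (α ^ 2) (1 / α ^ 2) * vr ν ≤ vr (ν.map fun x => α * x) := by
  have hm : Measurable fun x : ℝ => α * x := measurable_const.mul measurable_id
  have : IsProbabilityMeasure (ν.map fun x => α * x) :=
    Measure.isProbabilityMeasure_map hm.aemeasurable
  have hc : Continuous cay := hCay.2.1
  have hn := hCay.1
  rw [vr_eq hCay ν, vr_eq hCay (ν.map fun x => α * x)]
  have h1 : (ν.map fun x => α * x).prod (ν.map fun x => α * x)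
      = (ν.prod ν).map (Prod.map (fun x => α * x) fun x => α * x) :=
    Measure.map_prod_map _ _ hm hm
  have hcd : Continuous fun p : ℝ × ℝ => ‖cay p.1 - cay p.2‖ ^ 2 :=
    ((hc.comp continuous_fst).sub (hc.comp continuous_snd)).norm.pow 2
  rw [h1, integral_map (hm.prodMap hm).aemeasurable hcd.aestronglyMeasurable]
  have h2 : min (α ^ 2) (1 / α ^ 2) * ∫ p : ℝ × ℝ, ‖cay p.1 - cay p.2‖ ^ 2 ∂(ν.prod ν)
      ≤ ∫ p : ℝ × ℝ, ‖cay (Prod.map (fun x => α * x) (fun x => α * x) p).1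
        - cay (Prod.map (fun x => α * x) (fun x => α * x) p).2‖ ^ 2 ∂(ν.prod ν) := by
    rw [← integral_const_mul]
    have bd : ∀ x y : ℝ, ‖cay x - cay y‖ ^ 2 ≤ 4 := by
      intro x y
      have := norm_sub_le (cay x) (cay y)
      rw [hn, hn] at this
      nlinarith [norm_nonneg (cay x - cay y)]
    refine integral_mono ?_ ?_ ?_
    · refine Integrable.const_mul ?_ _
      refine Integrable.of_bound hcd.aestronglyMeasurable 4 (ae_of_all _ fun p => ?_)
      rw [Real.norm_of_nonneg (by positivity)]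
      exact bd _ _
    · refine Integrable.of_bound (hcd.measurable.comp (hm.prodMap hm)).aestronglyMeasurable 4
        (ae_of_all _ fun p => ?_)
      rw [Real.norm_of_nonneg (by positivity)]
      exact bd _ _
    · intro p
      obtain ⟨x, y⟩ := p
      change min (α ^ 2) (1 / α ^ 2) * ‖cay x - cay y‖ ^ 2 ≤ ‖cay (α * x) - cay (α * y)‖ ^ 2
      rw [cay_sub, cay_sub]
      obtain ⟨t, ht⟩ : ∃ t, t = min 1 (1 / α ^ 2) := ⟨_, rfl⟩
      have ht0 : 0 < t := by rw [ht]; positivity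
      have r1 := ratio α x hα
      have r2 := ratio α y hα
      rw [← ht] at r1 r2
      have e1 : min (α ^ 2) (1 / α ^ 2) ≤ α ^ 2 * (t * t) := by
        rw [ht]
        rcases le_total 1 (1 / α ^ 2) with h | h
        · rw [min_eq_left h]
          simp
        · rw [min_eq_right h]
          refine (min_le_right _ _).trans (le_of_eq ?_)
          field_simp
      have p1 : 0 < 1 + α ^ 2 * x ^ 2 := by positivity
      have p2 : 0 < 1 + α ^ 2 * y ^ 2 := by positivity
      have q1 : 0 < 1 + x ^ 2 := by positivity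
      have q2 : 0 < 1 + y ^ 2 := by positivity
      have e2 : (t * (1 + α ^ 2 * x ^ 2)) * (t * (1 + α ^ 2 * y ^ 2))
          ≤ (1 + x ^ 2) * (1 + y ^ 2) := mul_le_mul r1 r2 (by positivity) q1.le
      calc min (α ^ 2) (1 / α ^ 2) * (4 * (x - y) ^ 2 / ((1 + x ^ 2) * (1 + y ^ 2)))
          ≤ (α ^ 2 * (t * t)) * (4 * (x - y) ^ 2 / ((1 + x ^ 2) * (1 + y ^ 2))) :=
            mul_le_mul_of_nonneg_right e1 (by positivity)
        _ ≤ 4 * (α * x - α * y) ^ 2 / ((1 + (α * x) ^ 2) * (1 + (α * y) ^ 2)) := by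
            rw [← mul_div_assoc, div_le_div_iff₀ (by positivity) (by positivity)]
            have e3 : 0 ≤ 4 * α ^ 2 * (x - y) ^ 2 := by positivity
            have e4 := mul_le_mul_of_nonneg_left e2 e3
            calc α ^ 2 * (t * t) * (4 * (x - y) ^ 2) * ((1 + (α * x) ^ 2) * (1 + (α * y) ^ 2))
                = 4 * α ^ 2 * (x - y) ^ 2
                  * ((t * (1 + α ^ 2 * x ^ 2)) * (t * (1 + α ^ 2 * y ^ 2))) := by ring
              _ ≤ 4 * α ^ 2 * (x - y) ^ 2 * ((1 + x ^ 2) * (1 + y ^ 2)) := e4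
              _ = _ := by ring
  linarith

theorem main (hCay : S_CAY) : S_VRS := fun ν _ α hα => main' hCay ν α hα.ne'

end

end Pool.Agent.U281.NP.Vrs
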