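import Pool.Agent.N659.HB.Stm5
import Pool.Agent.W792.WA.G11

/-!
From a uniform gap for a totally bounded family of laws to the estimates for absolutely continuous
spectrum, with one function for all laws of the family, any kinetic energy. Adapted from
`Pool/Agent/N768/HBChk.lean` (one law).
-/

namespace Pool.Agent.U281.NP.Chk

open MeasureTheory Filter Pool.Agent.W792.LL Pool.Agent.W792.WA Pool.Agent.W792.WA.Ch
  Pool.Agent.W792.WA.ChK Pool.Agent.N659.HB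
open scoped Topology

noncomputable section

/-- `S_CHK` for a family of laws. -/
def S_CHKU : Prop :=
  ∀ (ψ : C(UnitAddCircle, ℝ)), IsSemi ψ → ∀ (d : ℕ) (K : C(UnitAddTorus (Fin d), ℝ)) (𝓧 : Set MX)
    (r σ : ℝ) (ρ : ℕ → Measure ℝ), (∀ n, IsProbabilityMeasure (ρ n)) → 0 < d →
    (∀ X ∈ 𝓧, 0 < vr (qlaw X)) → TB 𝓧 → 0 < r → 0 < σ →
    (∀ n, ρ n = (lev ψ (r * (1 / 16) ^ n)).conv (ρ (n + 1))) →
    (∀ n, ρ n (Set.Icc (-(2 * r * (1 / 16) ^ n)) (2 * r * (1 / 16) ^ n))ᶜ = 0) →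
    (∀ (n : ℕ) (a b : ℝ), ρ n {a, b} < 1) →
    (∀ X ∈ 𝓧, ∀ z ∈ Zs d, ∀ s, IsFix (qlaw X) (ρ 0) (wz K z) s → ‖s‖ ≤ 1 - σ) →
    ∃ f : C(ℝ, ℝ), IsSum ψ (2 * r) f ∧ ∀ X ∈ 𝓧, MestK (K + gK f d) (qlaw X)

/-- Invariant of stage `n`. -/
def InvK (𝓧 : Set MX) {d : ℕ} (K : C(UnitAddTorus (Fin d), ℝ))
    (ρ : ℕ → Measure ℝ) (σ : ℝ) (n : ℕ) (a : C(ℝ, ℝ) × ℝ) : Prop :=
  (∀ X ∈ 𝓧, GapK (qlaw X) (ρ n) (kg K a.1) (σ * (1 / 2 + 1 / 2 ^ (n + 1)))) ∧ 0 < a.2 ∧ a.2 ≤ 1 ∧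
    ∃ q : ℝ, 0 ≤ q ∧ q < 1 ∧ a.2 ≤ (1 - q ^ 2) / 8 ∧ ∀ X ∈ 𝓧, CtrK (qlaw X) (ρ n) (kg K a.1) q

/-- Relation of two stages. -/
def RelK (𝓧 : Set MX) {d : ℕ} (K : C(UnitAddTorus (Fin d), ℝ))
    (ψ : C(UnitAddCircle, ℝ)) (l : ℕ → ℝ) (ρ : ℕ → Measure ℝ) (n : ℕ) (a b : C(ℝ, ℝ) × ℝ) : Prop :=
  (∃ M : ℕ, b.1 = nx ψ a.1 (l n) M) ∧ b.2 ≤ a.2 ∧ ∀ X ∈ 𝓧, ∀ z ∈ Zs d, ∀ s s',
    IsFix (qlaw X) (ρ n) (wz (kg K a.1) z) s → IsFix (qlaw X) (ρ (n + 1)) (wz (kg K b.1) z) s' →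
      ∫ v, ‖Zf (UU (ρ n) (wz (kg K a.1) z) s) (fun x => cay (v x))
        - Zf (UU (ρ (n + 1)) (wz (kg K b.1) z) s') (fun x => cay (v x))‖
          ∂(Pn (qlaw X) (Fin d → ℤ)) ≤ a.2 / (64 * 8 ^ n)

theorem step_invK (hU : S_UNI2) (hS : S_STEP2) {𝓧 : Set MX} {d : ℕ}
    (hd : 0 < d) {K : C(UnitAddTorus (Fin d), ℝ)} {ψ : C(UnitAddCircle, ℝ)} (hψ : IsSemi ψ)
    (hv : ∀ X ∈ 𝓧, 0 < vr (qlaw X)) (hTB : TB 𝓧) {l : ℕ → ℝ}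
    (hl : ∀ n, 0 < l n) {ρ : ℕ → Measure ℝ} (hρ1 : ∀ n, IsProbabilityMeasure (ρ n))
    (hρ2 : ∀ n, ρ n = (lev ψ (l n)).conv (ρ (n + 1))) {T : ℕ → ℝ}
    (hρ3 : ∀ n, ρ n (Set.Icc (-(T n)) (T n))ᶜ = 0) (hρ4 : ∀ (n : ℕ) (a b : ℝ), ρ n {a, b} < 1)
    {σ : ℝ} (hσ : 0 < σ) (n : ℕ) (a : C(ℝ, ℝ) × ℝ) (ha : InvK 𝓧 K ρ σ n a) :
    ∃ b, InvK 𝓧 K ρ σ (n + 1) b ∧ RelK 𝓧 K ψ l ρ n a b := by
  obtain ⟨h1, h2, h2', -⟩ := ha
  have hσn : 0 < σ * (1 / 2 + 1 / 2 ^ (n + 1)) := by positivity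
  have hσn' : 0 < σ * (1 / 2 + 1 / 2 ^ (n + 1 + 1)) := by positivity
  have := hρ1 n
  have := hρ1 (n + 1)
  have hex : ∀ X ∈ 𝓧, ∀ z ∈ Zs d, ∃! s, IsFix (qlaw X) (ρ n) (wz (kg K a.1) z) s := by
    intro X hX
    exact ((hU d (ρ n) (T n) _ (kg K a.1) (hρ3 n) (hρ4 n) hσn).1.choose_spec.2.2 (qlaw X)
      (hv X hX) (h1 X hX)).1
  set e : ℝ := min (a.2 / (64 * 8 ^ n)) (σ / 2 ^ (n + 2)) with he
  have he0 : 0 < e := lt_min (by positivity) (by positivity)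
  have h1' : ∀ X ∈ 𝓧, ∀ z ∈ Zs d, ∀ s,
      IsFix (qlaw X) ((lev ψ (l n)).conv (ρ (n + 1))) (wz (kg K a.1) z) s →
      ‖s‖ ≤ 1 - σ * (1 / 2 + 1 / 2 ^ (n + 1)) := by
    rw [← hρ2 n]; exact h1
  obtain ⟨M, hM⟩ := hS d ψ (ρ (n + 1)) (T (n + 1)) _ (l n) (kg K a.1) 𝓧 hd hψ hv hTB
    (hρ3 (n + 1)) (hρ4 (n + 1)) (hl n) hσn h1' e he0
  have hM' := hM M le_rfl
  rw [← hρ2 n, ← kg_nx] at hM'
  have hgap : ∀ X ∈ 𝓧, GapK (qlaw X) (ρ (n + 1)) (kg K (nx ψ a.1 (l n) M))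
      (σ * (1 / 2 + 1 / 2 ^ (n + 1 + 1))) := by
    intro X hX z hz s' hs'
    obtain ⟨s, hs, -⟩ := hex X hX z hz
    have h3 := (hM' X hX z hz s s' hs hs').1
    have h4 := h1 X hX z hz s hs
    have h5 : ‖s'‖ ≤ ‖s‖ + ‖s - s'‖ := by
      have := norm_sub_le s (s - s')
      rwa [sub_sub_cancel] at this
    have h6 : e ≤ σ / 2 ^ (n + 2) := min_le_right _ _
    have h7 : σ * (1 / 2 + 1 / 2 ^ (n + 1)) = σ * (1 / 2 + 1 / 2 ^ (n + 1 + 1)) + σ / 2 ^ (n + 2) := by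
      field_simp
      ring
    linarith
  obtain ⟨q, hq0, hq1, hq2⟩ := (hU d (ρ (n + 1)) (T (n + 1)) _ (kg K (nx ψ a.1 (l n) M))
    (hρ3 (n + 1)) (hρ4 (n + 1)) hσn').1
  have hq3 : 0 < (1 - q ^ 2) / 8 := by
    have : q ^ 2 < 1 := by nlinarith
    linarith
  refine ⟨(nx ψ a.1 (l n) M, min a.2 ((1 - q ^ 2) / 8)), ⟨hgap, lt_min h2 hq3,
    (min_le_left _ _).trans h2', q, hq0, hq1, min_le_right _ _, fun X hX =>
      (hq2 (qlaw X) (hv X hX) (hgap X hX)).2⟩, ⟨M, rfl⟩, min_le_left _ _, ?_⟩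
  intro X hX z hz s s' hs hs'
  exact (hM' X hX z hz s s' hs hs').2.trans (min_le_left _ _)

/-- CHKU -/
theorem main (hX : S_CX) (hUU : S_UUC) (hL : S_SCL) (hZ : S_ZF) (hCay : S_CAY)
    (hM : S_MZP) (hU1 : S_UNI) (hU : S_UNI2) (hS : S_STEP2) : S_CHKU := by
  intro ψ hψ d K 𝓧 r σ ρ hρ1 hd hv hTB hr hσ hρ2 hρ3 hρ4 hbase0
  set l : ℕ → ℝ := fun n => r * (1 / 16) ^ n with hl
  set T : ℕ → ℝ := fun n => 2 * r * (1 / 16) ^ n with hT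
  have hl0 : ∀ n, 0 < l n := fun n => by simp only [hl]; positivity
  have hTp : ∀ n, 0 ≤ T n := fun n => by simp only [hT]; positivity
  have hTT : ∀ n, l n + T (n + 1) ≤ T n := by
    intro n
    simp only [hT, hl]
    rw [pow_succ]
    have : 0 < r * (1 / 16 : ℝ) ^ n := by positivity
    linarith
  have hbase : ∀ X ∈ 𝓧, GapK (qlaw X) (ρ 0) (kg K 0) σ := by
    intro X hX z hz s hs
    rw [kg_zero] at hs
    exact hbase0 X hX z hz s hs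
  obtain ⟨x, hx⟩ := exists_seq (α := C(ℝ, ℝ) × ℝ)
    (fun n a => InvK 𝓧 K ρ σ n a ∧ (n = 0 → a.1 = 0))
    (fun n a b => RelK 𝓧 K ψ l ρ n a b) (by
      have := hρ1 0
      obtain ⟨q, hq0, hq1, hq2⟩ := (hU d (ρ 0) (T 0) σ (kg K 0) (hρ3 0) (hρ4 0) hσ).1
      have hq3 : 0 < (1 - q ^ 2) / 8 := by
        have : q ^ 2 < 1 := by nlinarith
        linarith
      have hq4 : (1 - q ^ 2) / 8 ≤ 1 := by nlinarith
      refine ⟨(0, (1 - q ^ 2) / 8), ⟨?_, hq3, hq4, q, hq0, hq1, le_rfl, fun X hX =>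
        (hq2 (qlaw X) (hv X hX) (hbase X hX)).2⟩, fun _ => rfl⟩
      have e : σ * (1 / 2 + 1 / 2 ^ (0 + 1)) = σ := by ring
      rw [e]
      exact hbase) (by
      intro n a ha
      obtain ⟨b, hb1, hb2⟩ := step_invK hU hS hd hψ hv hTB hl0 hρ1 hρ2 hρ3 hρ4 hσ n a ha.1
      exact ⟨b, ⟨hb1, fun h => absurd h (Nat.succ_ne_zero n)⟩, hb2⟩)
  have hMe : ∀ n, ∃ M : ℕ, (x (n + 1)).1 = nx ψ (x n).1 (l n) M := fun n => (hx n).2.1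
  choose M hMe using hMe
  have hq : ∀ n, ∃ q : ℝ, 0 ≤ q ∧ q < 1 ∧ (x n).2 ≤ (1 - q ^ 2) / 8 ∧
      ∀ X ∈ 𝓧, CtrK (qlaw X) (ρ n) (kg K (x n).1) q := fun n => (hx n).1.1.2.2.2
  choose q hq0 hq1 hq2 hq3 using hq
  let L : LvK ψ := {
    l := l, T := T, f := fun n => (x n).1, M := M
    hψ := hψ.bound
    hl := hl0
    hT := hTT
    hTp := hTp
    f0 := (hx 0).1.2 rfl
    fs := hMe }
  have hT0 : T 0 = 2 * r := by simp [hT]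
  have hTt : Tendsto T atTop (𝓝 0) := by
    have h1 := (tendsto_pow_atTop_nhds_zero_of_lt_one (by norm_num : (0 : ℝ) ≤ 1 / 16)
      (by norm_num : (1 : ℝ) / 16 < 1)).const_mul (2 * r)
    rw [mul_zero] at h1
    exact h1
  have hsumle : ∑' j, L.l j ≤ 2 * r := by
    refine Real.tsum_le_of_sum_range_le (fun n => (L.hl n).le) fun m => ?_
    have h1 := L.sum_l 0 m
    have h2 := L.hTp (0 + m)
    simp only [zero_add] at h1 h2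
    have h3 : L.T 0 = 2 * r := hT0
    linarith
  refine ⟨L.fI, ⟨L.l, L.M, fun j => (L.hl j).le, L.summable_l, hsumle, fun t => rfl⟩, ?_⟩
  intro X hXX
  let E : CEK (qlaw X) K := {
    ρ := ρ
    T := T
    σ := σ / 2
    f := fun n => (x n).1
    fI := L.fI
    B := T 0
    p := fun n => (x n).2
    q := q
    hv := hv X hXX
    T_anti := L.T_anti
    hTp := hTp
    hT0 := hTt
    hρ1 := hρ1
    hρ3 := hρ3
    hρ4 := hρ4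
    hσ := by positivity
    gap := by
      intro n z hz s hs
      have h1 := (hx n).1.1.1 X hXX z hz s hs
      have h2 : σ / 2 ≤ σ * (1 / 2 + 1 / 2 ^ (n + 1)) := by
        have : 0 < σ * (1 / 2 ^ (n + 1)) := by positivity
        linarith
      linarith
    hp := fun n => (hx n).1.1.2.1
    anti := fun n => (hx n).2.2.1
    hq0 := hq0
    hq1 := hq1
    hq2 := hq2
    ctr := fun n => hq3 n X hXX
    fI_diff := fun n t => L.fI_diff n t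
    fI_id := L.fI_id
    f_id := fun n t => L.f_id n t
    rel := fun n => (hx n).2.2.2 X hXX }
  exact E.concl hX hUU hL hZ hCay hM hU1

end

end Pool.Agent.U281.NP.Chk
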