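import Pool.Agent.U281.NP.Fin
import Pool.Agent.N659.HB.AllK

/-!
All parts of the project NP.
-/

namespace Pool.Agent.U281.NP.Al

open Pool.Agent.W792.LL Pool.Agent.W792.WA Pool.Agent.N659.HB
open Pool.Agent.W792.WA.Al

theorem caui : S_CAUI := Pool.Agent.U281.NP.Cau.main
theorem tan2 : S_TAN2 := Pool.Agent.U281.NP.Tan.main
theorem lev1 : S_LEV1 := Pool.Agent.U281.NP.Lev1.main sc1 cx tan2
theorem gapn : S_GAPN := Pool.Agent.U281.NP.Gap.main lev1 cx uuc psi fix
theorem steplv : Pool.Agent.U281.NP.Step.S_STEPLv :=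
  Pool.Agent.U281.NP.Step.main sc1 scl gain psi uuc fix stab cx uni c1
theorem stepl : S_STEPL :=
  Pool.Agent.U281.NP.Step2.main steplv sc1 scl gain psi uuc fix stab cx psiw zfw
theorem hopm : S_HOPM := Pool.Agent.U281.NP.Hopm.main Pool.Agent.W174.WA.KA.main kc
  Pool.Agent.W332.WA.WB.main
theorem eqd : S_EQD :=
  Pool.Agent.U281.NP.Eqd.main (Pool.Agent.W191.LL.main Pool.Agent.W688.LL.Osc.main)
theorem nor : Pool.Agent.U281.NP.Nor.S_NOR :=
  Pool.Agent.U281.NP.Nor.main cx uuc scl zf cay mzp uni uni2 step2 stepl gapn hopm eqd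
    Pool.Agent.W915.WA.WH.main Pool.Agent.W332.WA.WB.main wd Pool.Agent.W792.WA.WSP.main fut netx2
    qnt2 aeqk
theorem npu : Pool.Agent.U281.NP.Fin.S_NPU := Pool.Agent.U281.NP.Fin.main nor cay sca aff

end Pool.Agent.U281.NP.Al
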