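import Pool.Agent.N659.HB.Stm5
import Pool.Agent.W191.LL.Avg0

/-!
Equidistribution of `M lap / 2π`.
-/

namespace Pool.Agent.U281.NP.Eqd

open MeasureTheory Filter Set
open scoped Topology
open Pool.Agent.W792.WA Pool.Agent.W792.LL Pool.Agent.W191.LL UnitAddTorus

noncomputable section

theorem vol1 : (volume : Measure UnitAddCircle) = AddCircle.haarAddCircle := by
  rw [AddCircle.volume_eq_smul_haarAddCircle, ENNReal.ofReal_one, one_smul]

theorem vold (d : ℕ) : (volume : Measure (UnitAddTorus (Fin d))) = mu d := by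
  unfold mu
  rw [← vol1]
  rfl

instance vprob (d : ℕ) : IsProbabilityMeasure (volume : Measure (UnitAddTorus (Fin d))) := by
  rw [vold]
  unfold mu
  infer_instance

theorem cont_int {d : ℕ} {f : UnitAddTorus (Fin d) → ℝ} (hf : Continuous f) :
    Integrable f (volume : Measure (UnitAddTorus (Fin d))) := by
  have := hf.continuousOn.integrableOn_compact
    (μ := (volume : Measure (UnitAddTorus (Fin d)))) isCompact_univ
  rwa [integrableOn_univ] at this

theorem main (hAV : S_AVG0) : S_EQD := by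
  intro d h hd e he
  let F : C(UnitAddTorus (Fin d) × UnitAddCircle, ℂ) := ⟨fun p => ((h p.2 : ℝ) : ℂ), by fun_prop⟩
  obtain ⟨M₀, hM₀⟩ := hAV d hd F e he
  refine ⟨M₀, fun M hM => ?_⟩
  have h1 := hM₀ M hM 0
  have hcont : Continuous fun k : UnitAddTorus (Fin d) =>
      h ((M * lap d k / (2 * Real.pi) : ℝ) : UnitAddCircle) :=
    h.continuous.comp ((AddCircle.continuous_mk' (1 : ℝ)).comp (by fun_prop))
  have h2 : mFourierCoeff (fun k : UnitAddTorus (Fin d) =>
        F (k, ((M * lap d k / (2 * Real.pi) : ℝ) : UnitAddCircle))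
          - ∫ φ in Set.Ioc (0 : ℝ) 1, F (k, (φ : UnitAddCircle))) 0
      = (((∫ k : UnitAddTorus (Fin d), h ((M * lap d k / (2 * Real.pi) : ℝ) : UnitAddCircle))
      - ∫ φ in Set.Ioc (0 : ℝ) 1, h (φ : UnitAddCircle) : ℝ) : ℂ) := by
    have e0 : (∫ φ in Set.Ioc (0 : ℝ) 1, ((h (φ : UnitAddCircle) : ℝ) : ℂ))
        = ((∫ φ in Set.Ioc (0 : ℝ) 1, h (φ : UnitAddCircle) : ℝ) : ℂ) := integral_ofReal
    have e1 : ∀ k : UnitAddTorus (Fin d), F (k, ((M * lap d k / (2 * Real.pi) : ℝ) : UnitAddCircle))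
          - ∫ φ in Set.Ioc (0 : ℝ) 1, F (k, (φ : UnitAddCircle))
        = ((h ((M * lap d k / (2 * Real.pi) : ℝ) : UnitAddCircle)
          - ∫ φ in Set.Ioc (0 : ℝ) 1, h (φ : UnitAddCircle) : ℝ) : ℂ) := by
      intro k
      push_cast
      rw [← e0]
      rfl
    have e2 : (fun k : UnitAddTorus (Fin d) =>
        F (k, ((M * lap d k / (2 * Real.pi) : ℝ) : UnitAddCircle))
          - ∫ φ in Set.Ioc (0 : ℝ) 1, F (k, (φ : UnitAddCircle)))
        = fun k : UnitAddTorus (Fin d) =>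
        ((h ((M * lap d k / (2 * Real.pi) : ℝ) : UnitAddCircle)
          - ∫ φ in Set.Ioc (0 : ℝ) 1, h (φ : UnitAddCircle) : ℝ) : ℂ) := funext e1
    rw [e2, mfc_eq, ← vold]
    have e3 : ∀ t : UnitAddTorus (Fin d), mFourier (-(0 : Fin d → ℤ)) t *
        ((h ((M * lap d t / (2 * Real.pi) : ℝ) : UnitAddCircle)
          - ∫ φ in Set.Ioc (0 : ℝ) 1, h (φ : UnitAddCircle) : ℝ) : ℂ)
        = ((h ((M * lap d t / (2 * Real.pi) : ℝ) : UnitAddCircle)
          - ∫ φ in Set.Ioc (0 : ℝ) 1, h (φ : UnitAddCircle) : ℝ) : ℂ) := by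
      intro t
      rw [neg_zero, mFourier_zero, ContinuousMap.one_apply, one_mul]
    simp_rw [e3]
    have e4 : (∫ k : UnitAddTorus (Fin d), (h ((M * lap d k / (2 * Real.pi) : ℝ) : UnitAddCircle)
          - ∫ φ in Set.Ioc (0 : ℝ) 1, h (φ : UnitAddCircle)))
        = (∫ k : UnitAddTorus (Fin d), h ((M * lap d k / (2 * Real.pi) : ℝ) : UnitAddCircle))
          - ∫ φ in Set.Ioc (0 : ℝ) 1, h (φ : UnitAddCircle) := by
      rw [integral_sub (cont_int hcont) (integrable_const _)]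
      simp
    rw [← e4]
    exact integral_ofReal (𝕜 := ℂ)
  rw [h2, Complex.norm_real, Real.norm_eq_abs] at h1
  exact h1

end

end Pool.Agent.U281.NP.Eqd
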