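import Pool.Agent.N659.HB.Stm5
import Pool.Agent.W62.WA.WD
import Pool.Agent.W988.WA.KC

/-!
Hopping amplitudes of one level of high frequency.
-/

namespace Pool.Agent.U281.NP.Hopm

open MeasureTheory Filter Set
open scoped Topology
open Pool.Agent.W792.WA Pool.Agent.W792.LL Pool.Agent.W191.LL UnitAddTorus Pool.Agent.N659.HB
open Pool.Agent.W62.WA.WD

noncomputable section

/-- Zeroth Fourier coefficient. -/
theorem c0 (ψ : C(UnitAddCircle, ℝ))
    (hm : (∫ φ in Set.Ioc (0 : ℝ) 1, ψ (φ : UnitAddCircle)) = 0) :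
    fourierCoeff (fun t : UnitAddCircle => ((ψ t : ℝ) : ℂ)) 0 = 0 := by
  rw [fourierCoeff_eq_intervalIntegral _ 0 0]
  rw [zero_add, intervalIntegral.integral_of_le zero_le_one]
  have : ∀ x : ℝ, (fourier (-0) (x : UnitAddCircle) : ℂ) • (((ψ (x : UnitAddCircle) : ℝ) : ℂ))
      = (((ψ (x : UnitAddCircle) : ℝ) : ℂ)) := by
    intro x
    simp
  simp_rw [this]
  have h2 : (∫ φ in Set.Ioc (0 : ℝ) 1, ((ψ (φ : UnitAddCircle) : ℝ) : ℂ))
      = ((∫ φ in Set.Ioc (0 : ℝ) 1, ψ (φ : UnitAddCircle) : ℝ) : ℂ) := integral_ofReal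
  rw [h2, hm]
  simp

theorem main (hKA : S_KA) (hKC : S_KC) (hWB : S_WB) : S_HOPM := by
  intro d ψ g ε hd hg0 hg1 hε hH hmean
  obtain ⟨C1, hC1, hA⟩ := hKA
  obtain ⟨C, hC, hb⟩ := hKC d hd
  have hsum := hWB ψ hH
  have hd' : (0 : ℝ) < d := by exact_mod_cast hd
  let ψC : C(UnitAddCircle, ℂ) := ⟨fun t => ((ψ t : ℝ) : ℂ), by fun_prop⟩
  let c : ℤ → ℂ := fourierCoeff ψC
  have hc0 : c 0 = 0 := c0 ψ hmean
  have hsum' : Summable fun h => ‖c h‖ := hsum
  have hps : ∀ y, HasSum (fun i => c i • fourier i y) (ψC y) :=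
    has_pointwise_sum_fourier_series_of_summable (f := ψC) hsum'.of_norm
  obtain ⟨T, hTdef⟩ : ∃ T, T = ∑' h, ‖c h‖ := ⟨_, rfl⟩
  have hT : 0 ≤ T := by rw [hTdef]; exact tsum_nonneg fun _ => norm_nonneg _
  obtain ⟨θ, hθ⟩ : ∃ θ, θ = g / ((d : ℝ) / 3) := ⟨_, rfl⟩
  have hd3 : 0 < (d : ℝ) / 3 := by positivity
  have hθ0 : 0 ≤ θ := by rw [hθ]; positivity
  have hθ1 : θ < 1 := by rw [hθ, div_lt_one hd3]; exact hg1
  have hθg : (d : ℝ) / 3 * θ = g := by rw [hθ]; field_simp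
  obtain ⟨A, hAd⟩ : ∃ A, A = T * (C1 ^ d) ^ (1 - θ) * C ^ θ := ⟨_, rfl⟩
  have hA0 : 0 ≤ A := by rw [hAd]; positivity
  have hs : 0 < (d : ℝ) / 3 - g := by linarith
  -- the choice of the frequency
  have hlim : Tendsto (fun M : ℕ => A * (1 + (M : ℝ)) ^ (-((d : ℝ) / 3 - g))) atTop (𝓝 0) := by
    have h1 : Tendsto (fun M : ℕ => (1 + (M : ℝ))) atTop atTop :=
      tendsto_atTop_add_const_left _ _ tendsto_natCast_atTop_atTop
    have h2 := (tendsto_rpow_neg_atTop hs).comp h1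
    have h3 := h2.const_mul A
    rw [mul_zero] at h3
    exact h3
  obtain ⟨M₀, hM₀⟩ := (hlim.eventually (gt_mem_nhds hε)).exists_forall_of_atTop
  refine ⟨max M₀ 1, ?_⟩
  intro M hM x
  have hMM : A * (1 + (M : ℝ)) ^ (-((d : ℝ) / 3 - g)) ≤ ε :=
    (hM₀ M ((le_max_left _ _).trans hM)).le
  have hM1 : (1 : ℝ) ≤ M := by exact_mod_cast (le_max_right _ _).trans hM
  have hMp : (0 : ℝ) < 1 + M := by linarith
  have hx0 : 0 < 1 + ‖x‖ := by positivity
  have hden : 0 < (1 + ‖x‖) ^ ((d : ℝ) / 3) := by positivity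
  -- bound for one harmonic
  have key : ∀ h : ℤ, h ≠ 0 → ‖mFourierCoeff (ex d ((h : ℝ) * M)) x‖
      ≤ (C1 ^ d) ^ (1 - θ) * C ^ θ * (1 + (M : ℝ)) ^ (-((d : ℝ) / 3 - g)) / (1 + ‖x‖) ^ g := by
    intro h hh
    have hh1 : (1 : ℝ) ≤ |(h : ℝ)| := by
      rw [← Int.cast_abs]
      exact_mod_cast Int.one_le_abs hh
    have ht : (M : ℝ) ≤ |(h : ℝ) * M| := by
      rw [abs_mul, abs_of_nonneg (by linarith : (0 : ℝ) ≤ M)]
      nlinarith
    have b1 : ‖mFourierCoeff (ex d ((h : ℝ) * M)) x‖ ≤ C / (1 + ‖x‖) ^ ((d : ℝ) / 3) :=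
      hb ((h : ℝ) * M) x
    have b2 : ‖mFourierCoeff (ex d ((h : ℝ) * M)) x‖
        ≤ C1 ^ d / (1 + (M : ℝ)) ^ ((d : ℝ) / 3) := by
      have e1 := Pool.Agent.W988.WA.KC.prodform d ((h : ℝ) * M) x
      have e2 : mFourierCoeff (ex d ((h : ℝ) * M)) x = ∏ i : Fin d, k1 ((h : ℝ) * M) (-x i) := by
        rw [← e1]
        rfl
      rw [e2, norm_prod]
      calc ∏ i : Fin d, ‖k1 ((h : ℝ) * M) (-x i)‖
          ≤ ∏ _i : Fin d, C1 / (1 + (M : ℝ)) ^ (1 / 3 : ℝ) := by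
            refine Finset.prod_le_prod (fun _ _ => norm_nonneg _) fun i _ => ?_
            refine (hA _ _).trans ?_
            apply div_le_div_of_nonneg_left hC1.le (by positivity)
            apply Real.rpow_le_rpow (by positivity) _ (by norm_num)
            linarith
        _ = C1 ^ d / (1 + (M : ℝ)) ^ ((d : ℝ) / 3) := by
            rw [Finset.prod_const, Finset.card_univ, Fintype.card_fin, div_pow,
              ← Real.rpow_mul_natCast hMp.le]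
            congr 2
            ring
    set Y := ‖mFourierCoeff (ex d ((h : ℝ) * M)) x‖ with hY
    have hY0 : 0 ≤ Y := norm_nonneg _
    have e0 : Y = Y ^ (1 - θ) * Y ^ θ := by
      rcases hY0.eq_or_lt with h0 | h0
      · rw [← h0, Real.zero_rpow (by linarith), zero_mul]
      · rw [← Real.rpow_add h0]
        norm_num
    rw [e0]
    have e1 : Y ^ (1 - θ) ≤ (C1 ^ d) ^ (1 - θ) * (1 + (M : ℝ)) ^ (-((d : ℝ) / 3 - g)) := by
      refine (Real.rpow_le_rpow hY0 b2 (by linarith)).trans ?_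
      rw [Real.div_rpow (by positivity) (by positivity), ← Real.rpow_mul hMp.le,
        Real.rpow_neg hMp.le, ← div_eq_mul_inv]
      have : (d : ℝ) / 3 * (1 - θ) = (d : ℝ) / 3 - g := by rw [mul_sub, mul_one, hθg]
      rw [this]
    have e2 : Y ^ θ ≤ C ^ θ / (1 + ‖x‖) ^ g := by
      refine (Real.rpow_le_rpow hY0 b1 hθ0).trans ?_
      rw [Real.div_rpow hC.le hden.le, ← Real.rpow_mul hx0.le, hθg]
    calc Y ^ (1 - θ) * Y ^ θ
        ≤ ((C1 ^ d) ^ (1 - θ) * (1 + (M : ℝ)) ^ (-((d : ℝ) / 3 - g))) * (C ^ θ / (1 + ‖x‖) ^ g) :=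
          mul_le_mul e1 e2 (by positivity) (by positivity)
      _ = _ := by ring
  let F : ℤ → UnitAddTorus (Fin d) → ℂ := fun h t =>
    mFourier (-x) t * (c h * ex d ((h : ℝ) * M) t)
  have hFi : ∀ h, Integrable (F h) (mu d) := fun h =>
    mfc_int (fun t => c h * ex d ((h : ℝ) * M) t) (continuous_const.mul (ex_cont d _)) (-x)
  have hFn : ∀ h t, ‖F h t‖ ≤ ‖c h‖ := by
    intro h t
    simp only [F]
    rw [norm_mul, norm_mul, ex_norm, mul_one]
    calc ‖mFourier (-x) t‖ * ‖c h‖ ≤ 1 * ‖c h‖ :=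
          mul_le_mul_of_nonneg_right (mf_norm _ _) (norm_nonneg _)
      _ = ‖c h‖ := one_mul _
  have hFs : Summable fun h => ∫ t, ‖F h t‖ ∂(mu d) := by
    refine Summable.of_nonneg_of_le (fun h => integral_nonneg fun t => norm_nonneg _) ?_ hsum'
    intro h
    calc ∫ t, ‖F h t‖ ∂(mu d) ≤ ∫ _, ‖c h‖ ∂(mu d) :=
          integral_mono (hFi h).norm (integrable_const _) (fun t => hFn h t)
      _ = ‖c h‖ := by simp
  have hS := hasSum_integral_of_summable_integral_norm hFi hFs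
  have e1 : (∫ t, (∑' h, F h t) ∂(mu d)) = mFourierCoeff (fun k : UnitAddTorus (Fin d) =>
      ((ψ ((M * lap d k / (2 * Real.pi) : ℝ) : UnitAddCircle) : ℝ) : ℂ)) x := by
    rw [mfc_eq]
    congr 1
    ext t
    have h1 := (hps (ph d M t)).mul_left (mFourier (-x) t)
    have h2 : (fun i => mFourier (-x) t * (c i • fourier i (ph d M t))) = fun i => F i t := by
      funext i
      simp only [F]
      rw [four, smul_eq_mul]
    rw [h2] at h1
    rw [h1.tsum_eq]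
    rfl
  have e2 : ∀ h, ∫ t, F h t ∂(mu d) = c h * mFourierCoeff (ex d ((h : ℝ) * M)) x := by
    intro h
    rw [← mfc_smul, mfc_eq]
  rw [e1] at hS
  have hbd : ∀ h, ‖∫ t, F h t ∂(mu d)‖ ≤ ‖c h‖ * ((C1 ^ d) ^ (1 - θ) * C ^ θ
      * (1 + (M : ℝ)) ^ (-((d : ℝ) / 3 - g)) / (1 + ‖x‖) ^ g) := by
    intro h
    rw [e2, norm_mul]
    by_cases hh : h = 0
    · rw [hh, hc0, norm_zero, zero_mul, zero_mul]
    · exact mul_le_mul_of_nonneg_left (key h hh) (norm_nonneg _)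
  have hle := hS.norm_le_of_bounded (hsum'.hasSum.mul_right _) hbd
  refine hle.trans ?_
  rw [← hTdef, ← mul_div_assoc]
  apply div_le_div_of_nonneg_right _ (by positivity)
  calc T * ((C1 ^ d) ^ (1 - θ) * C ^ θ * (1 + (M : ℝ)) ^ (-((d : ℝ) / 3 - g)))
      = A * (1 + (M : ℝ)) ^ (-((d : ℝ) / 3 - g)) := by rw [hAd]; ring
    _ ≤ ε := hMM

end

end Pool.Agent.U281.NP.Hopm
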