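import Pool.Agent.W792.WA.Stm5
import Pool.Agent.W335.LLCay

/-!
Cauchy averages of the resolvent: the average over a Cauchy variable of scale `γ` is the value at
the shifted energy.
-/

namespace Pool.Agent.U281.NP.Cau

open MeasureTheory Filter Pool.Agent.W792.LL Pool.Agent.W792.WA
open scoped Topology

noncomputable section

theorem hCay : S_CAY := Pool.Agent.W335.LLCay.main

/-- `∫ (c - 1) / (1 - τ c) = -1` for `c = cay a`, `a` Cauchy. -/
theorem int_geom (τ : ℂ) (hτ : ‖τ‖ < 1) :
    ∫ a, (cay a - 1) / (1 - τ * cay a) ∂(ProbabilityTheory.cauchyMeasure 0 1) = -1 := by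
  have hc1 := hCay.1
  have hcc : Continuous cay := hCay.2.1
  have hci : ∀ k : ℕ, Integrable (fun a => cay a ^ k) (ProbabilityTheory.cauchyMeasure 0 1) :=
    fun k => Integrable.of_bound ((hcc.pow k).aestronglyMeasurable) 1
      (ae_of_all _ fun a => by rw [norm_pow, hc1, one_pow])
  let F : ℕ → ℝ → ℂ := fun n a => τ ^ n * (cay a ^ (n + 1) - cay a ^ n)
  have hFi : ∀ n, Integrable (F n) (ProbabilityTheory.cauchyMeasure 0 1) := fun n =>
    ((hci (n + 1)).sub (hci n)).const_mul _
  have hFn : ∀ n a, ‖F n a‖ ≤ ‖τ‖ ^ n * 2 := by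
    intro n a
    simp only [F]
    rw [norm_mul, norm_pow]
    refine mul_le_mul_of_nonneg_left ?_ (by positivity)
    refine (norm_sub_le _ _).trans ?_
    rw [norm_pow, norm_pow, hc1, one_pow, one_pow]
    norm_num
  have hgs : Summable fun n : ℕ => ‖τ‖ ^ n * 2 :=
    (summable_geometric_of_lt_one (norm_nonneg _) hτ).mul_right 2
  have hFs : Summable fun n => ∫ a, ‖F n a‖ ∂(ProbabilityTheory.cauchyMeasure 0 1) := by
    refine Summable.of_nonneg_of_le (fun n => integral_nonneg fun a => norm_nonneg _) ?_ hgs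
    intro n
    calc ∫ a, ‖F n a‖ ∂(ProbabilityTheory.cauchyMeasure 0 1)
        ≤ ∫ _, ‖τ‖ ^ n * 2 ∂(ProbabilityTheory.cauchyMeasure 0 1) :=
          integral_mono (hFi n).norm (integrable_const _) (fun a => hFn n a)
      _ = ‖τ‖ ^ n * 2 := by simp
  have hS := hasSum_integral_of_summable_integral_norm hFi hFs
  have e1 : (∫ a, (∑' n, F n a) ∂(ProbabilityTheory.cauchyMeasure 0 1))
      = ∫ a, (cay a - 1) / (1 - τ * cay a) ∂(ProbabilityTheory.cauchyMeasure 0 1) := by
    congr 1
    ext a
    have hn : ‖τ * cay a‖ < 1 := by rw [norm_mul, hc1, mul_one]; exact hτ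
    have h1 := (hasSum_geometric_of_norm_lt_one hn).mul_left (cay a - 1)
    have h2 : (fun n => (cay a - 1) * (τ * cay a) ^ n) = fun n => F n a := by
      funext n
      simp only [F]
      rw [mul_pow, pow_succ]
      ring
    rw [h2] at h1
    rw [h1.tsum_eq, div_eq_mul_inv]
  have hI0 : ∫ a, F 0 a ∂(ProbabilityTheory.cauchyMeasure 0 1) = -1 := by
    simp only [F]
    rw [integral_const_mul, integral_sub (hci (0 + 1)) (hci 0), hCay.2.2.2 (0 + 1) (by norm_num)]
    simp
  have hIn : ∀ n, n ≠ 0 → ∫ a, F n a ∂(ProbabilityTheory.cauchyMeasure 0 1) = 0 := by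
    intro n hn
    simp only [F]
    rw [integral_const_mul, integral_sub (hci (n + 1)) (hci n), hCay.2.2.2 (n + 1) (by omega),
      hCay.2.2.2 n (Nat.pos_of_ne_zero hn)]
    simp
  rw [e1] at hS
  have h3 := hasSum_ite_eq (α := ℂ) (0 : ℕ) (-1)
  have h4 : (fun n => ∫ a, F n a ∂(ProbabilityTheory.cauchyMeasure 0 1))
      = fun n => if n = 0 then (-1 : ℂ) else 0 := by
    funext n
    split_ifs with h
    · rw [h, hI0]
    · exact hIn n h
  rw [h4] at hS
  exact hS.unique h3

/-- The average of `1 / (γ a - P)`. -/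
theorem int_inv (γ : ℝ) (P : ℂ) (hγ : 0 < γ) (hP : 0 < P.im) :
    ∫ a, 1 / ((γ * a : ℝ) - P) ∂(ProbabilityTheory.cauchyMeasure 0 1)
      = 1 / (-(γ * Complex.I) - P) := by
  have h1 : P + γ * Complex.I ≠ 0 := by
    intro h
    have := congrArg Complex.im h
    simp at this
    linarith
  set τ : ℂ := (P - γ * Complex.I) / (P + γ * Complex.I) with hτd
  have hτ : ‖τ‖ < 1 := by
    rw [hτd, norm_div, div_lt_one (norm_pos_iff.2 h1)]
    rw [← sq_lt_sq₀ (norm_nonneg _) (norm_nonneg _), Complex.sq_norm, Complex.sq_norm,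
      Complex.normSq_apply, Complex.normSq_apply]
    simp
    nlinarith
  have h2 : ∀ a : ℝ, 1 / (((γ * a : ℝ) : ℂ) - P)
      = (1 / (P + γ * Complex.I)) * ((cay a - 1) / (1 - τ * cay a)) := by
    intro a
    have e1 : (a : ℂ) - Complex.I ≠ 0 := by
      intro h
      have := congrArg Complex.im h
      simp at this
    have e2 : ((γ * a : ℝ) : ℂ) - P ≠ 0 := by
      intro h
      have := congrArg Complex.im h
      simp at this
      linarith
    have e3 : cay a - 1 = 2 * Complex.I / (a - Complex.I) := by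
      unfold cay
      field_simp
      ring
    have e4 : (P + γ * Complex.I) * (1 - τ * cay a)
        = (2 * Complex.I) * (((γ * a : ℝ) : ℂ) - P) / (a - Complex.I) := by
      rw [hτd]
      unfold cay
      push_cast
      field_simp
      have hI : Complex.I ^ 2 = -1 := Complex.I_sq
      ring_nf
    have e5 : (1 - τ * cay a) ≠ 0 := by
      intro h
      rw [h, mul_zero] at e4
      have h0 := e4.symm
      rw [div_eq_zero_iff, mul_eq_zero] at h0
      rcases h0 with (h | h) | h
      · simp at h
      · exact e2 h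
      · exact e1 h
    rw [← mul_div_assoc, one_div_mul_eq_div, div_div, e4, e3]
    field_simp
  simp_rw [h2]
  rw [integral_const_mul, int_geom τ hτ]
  have h3 : -(γ * Complex.I) - P ≠ 0 := by
    intro h
    apply h1
    linear_combination -h
  field_simp
  ring

/-- The pole. -/
def pole (s : ℂ) : ℂ := Complex.I * (1 + s) / (1 - s)

theorem one_sub_ne {s : ℂ} (hs : ‖s‖ < 1) : 1 - s ≠ 0 := by
  intro h
  have : s = 1 := by linear_combination -h
  rw [this, norm_one] at hs
  exact lt_irrefl _ hs

theorem pole_im {s : ℂ} (hs : ‖s‖ < 1) : 0 < (pole s).im := by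
  have h1 := one_sub_ne hs
  have h2 : 0 < Complex.normSq (1 - s) := Complex.normSq_pos.2 h1
  have h3 : (pole s).im = (1 - Complex.normSq s) / Complex.normSq (1 - s) := by
    unfold pole
    rw [Complex.div_im]
    simp [Complex.normSq_apply]
    field_simp
    ring
  rw [h3]
  apply div_pos _ h2
  rw [Complex.normSq_eq_norm_sq]
  nlinarith [norm_nonneg s]

theorem mob (y s : ℂ) (hy : y.im ≤ 0) (hs : ‖s‖ < 1) :
    (y + Complex.I) / (y - Complex.I) / (1 - (y + Complex.I) / (y - Complex.I) * s)
      = 1 / (1 - s) + 2 * Complex.I / (1 - s) ^ 2 * (1 / (y - pole s)) := by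
  have h1 := one_sub_ne hs
  have h2 : y - Complex.I ≠ 0 := by
    intro h
    have := congrArg Complex.im h
    simp at this
    linarith
  have h3 : y - pole s ≠ 0 := by
    intro h
    have h4 := congrArg Complex.im h
    have h5 := pole_im hs
    simp at h4
    linarith
  have h4 : 1 - (y + Complex.I) / (y - Complex.I) * s
      = (1 - s) * (y - pole s) / (y - Complex.I) := by
    unfold pole
    field_simp
    ring
  rw [h4]
  have h5 : (y + Complex.I) = (y - pole s) + 2 * Complex.I / (1 - s) := by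
    unfold pole
    field_simp
    ring
  rw [div_div_div_cancel_right₀ h2, h5]
  field_simp

theorem main : S_CAUI := by
  intro γ x s hγ hx hs
  have h1 : ∀ a : ℝ, cayx x (γ * a) / (1 - cayx x (γ * a) * s)
      = 1 / (1 - s) + 2 * Complex.I / (1 - s) ^ 2 * (1 / ((γ * a : ℝ) - (pole s - x))) := by
    intro a
    have h2 := mob (x + (γ * a : ℝ)) s (by simp; linarith) hs
    unfold cayx
    rw [h2]
    congr 3
    ring
  have h2 : cayx (x - γ * Complex.I) 0 / (1 - cayx (x - γ * Complex.I) 0 * s)
      = 1 / (1 - s) + 2 * Complex.I / (1 - s) ^ 2 * (1 / (-(γ * Complex.I) - (pole s - x))) := by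
    have h3 := mob (x - γ * Complex.I) s (by simp; linarith) hs
    unfold cayx
    rw [Complex.ofReal_zero, add_zero, h3]
    congr 3
    ring
  rw [h2]
  simp_rw [h1]
  have hP : 0 < (pole s - x).im := by
    rw [Complex.sub_im]
    linarith [pole_im hs]
  have hi : Integrable (fun a : ℝ => 1 / (((γ * a : ℝ) : ℂ) - (pole s - x)))
      (ProbabilityTheory.cauchyMeasure 0 1) := by
    refine Integrable.of_bound ?_ (1 / (pole s - x).im) (ae_of_all _ fun a => ?_)
    · apply Measurable.aestronglyMeasurable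
      fun_prop
    · rw [norm_div, norm_one]
      apply one_div_le_one_div_of_le hP
      have h3 := Complex.abs_im_le_norm (((γ * a : ℝ) : ℂ) - (pole s - x))
      rw [Complex.sub_im, Complex.ofReal_im, zero_sub, abs_neg] at h3
      exact (le_abs_self _).trans h3
  rw [integral_add (integrable_const _) (hi.const_mul _), integral_const_mul,
    int_inv γ _ hγ hP]
  simp

end

end Pool.Agent.U281.NP.Cau
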