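import Pool.Agent.U281.NP.Nor

/-!
The theorem at arbitrary disorder: reduction to the normalized form.
-/

namespace Pool.Agent.U281.NP.Fin

open MeasureTheory Filter Set
open scoped Topology
open Pool.Agent.W792.WA Pool.Agent.W792.LL Pool.Agent.W191.LL UnitAddTorus Pool.Agent.N659.HB
open Pool.Agent.U281.NP.Nor Pool.Agent.U281.NP.Eqd

noncomputable section

/-- The theorem at arbitrary disorder, uniform in the law and the coupling. -/
def S_NPU : Prop :=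
  ∀ (d : ℕ) (K : C(UnitAddTorus (Fin d), ℝ)) (a b p g κ ε : ℝ), 0 < d → a < b → 1 < p → p < 2 →
    0 ≤ g → g < (d : ℝ) / 3 → 0 < κ → 0 < ε →
    ∃ f : C(ℝ, ℝ), (∃ B : ℝ, ∀ t, |f t| ≤ B) ∧
      (∫ k : UnitAddTorus (Fin d), |f (lap d k)| ^ p ≤ ε) ∧
      (∀ x : Fin d → ℤ,
        ‖UnitAddTorus.mFourierCoeff (fun k : UnitAddTorus (Fin d) => ((f (lap d k) : ℝ) : ℂ)) x‖
          ≤ ε / (1 + ‖x‖) ^ g) ∧
      ∀ (ν : Measure ℝ) [IsProbabilityMeasure ν], κ ≤ vr ν → ∀ lam : ℝ, κ ≤ |lam| →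
        |lam| ≤ 1 / κ → ∀ᵐ v ∂(Pn ν (Fin d → ℤ)), ACIK (K + gK f d) lam v a b

theorem acik_one {d : ℕ} {K : C(UnitAddTorus (Fin d), ℝ)} {c a b : ℝ} {v : (Fin d → ℤ) → ℝ}
    (h : ACIK K 1 (fun y => c * v y) a b) : ACIK K c v a b := by
  unfold ACIK Sol at h ⊢
  simp only [one_mul] at h
  exact h

theorem main (hN : S_NOR) (hCay : S_CAY) (hSCA : S_SCA) (hAFF : S_AFF) : S_NPU := by
  intro d K a b p g κ ε hd hab hp1 hp2 hg0 hg1 hκ hε
  have hd' : (0 : ℝ) < d := by exact_mod_cast hd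
  have hba : 0 < b - a := by linarith
  obtain ⟨α, hα⟩ : ∃ α, α = 4 * d / (b - a) := ⟨_, rfl⟩
  have hα0 : 0 < α := by rw [hα]; positivity
  obtain ⟨κ₂, hκ₂⟩ : ∃ κ₂, κ₂ = min (α ^ 2 * κ ^ 2) (κ ^ 2 / α ^ 2) := ⟨_, rfl⟩
  have hκ₂0 : 0 < κ₂ := by rw [hκ₂]; positivity
  have hαp : 0 < α ^ p := Real.rpow_pos_of_pos hα0 _
  obtain ⟨ε', hε'⟩ : ∃ ε', ε' = min (ε * α ^ p) (ε * α) := ⟨_, rfl⟩
  have hε'0 : 0 < ε' := by rw [hε']; positivity
  obtain ⟨f, ⟨B, hB⟩, hf1, hf2, hf3⟩ :=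
    hN d (α • (K - ContinuousMap.const _ a)) p g (κ₂ * κ) ε' hd hp1 hp2 hg0 hg1 (by positivity) hε'0
  refine ⟨α⁻¹ • f, ⟨α⁻¹ * B, fun t => ?_⟩, ?_, ?_, ?_⟩
  · change |α⁻¹ * f t| ≤ _
    rw [abs_mul, abs_of_pos (inv_pos.2 hα0)]
    exact mul_le_mul_of_nonneg_left (hB t) (inv_pos.2 hα0).le
  · have h1 : ∀ k : UnitAddTorus (Fin d), |(α⁻¹ • f) (lap d k)| ^ p
        = (α ^ p)⁻¹ * |f (lap d k)| ^ p := by
      intro k
      change |α⁻¹ * f (lap d k)| ^ p = _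
      rw [abs_mul, abs_of_pos (inv_pos.2 hα0), Real.mul_rpow (inv_pos.2 hα0).le (abs_nonneg _),
        Real.inv_rpow hα0.le]
    simp_rw [h1]
    rw [integral_const_mul, inv_mul_le_iff₀ hαp, mul_comm]
    exact hf1.trans (by rw [hε']; exact min_le_left _ _)
  · intro x
    have h1 : (fun k : UnitAddTorus (Fin d) => (((α⁻¹ • f) (lap d k) : ℝ) : ℂ))
        = fun k => ((α⁻¹ : ℝ) : ℂ) * ((f (lap d k) : ℝ) : ℂ) := by
      funext k
      change ((α⁻¹ * f (lap d k) : ℝ) : ℂ) = _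
      rw [Complex.ofReal_mul]
    rw [h1, mfc_smul, norm_mul, Complex.norm_real, Real.norm_of_nonneg (inv_pos.2 hα0).le]
    have hx : 0 < (1 + ‖x‖) ^ g := Real.rpow_pos_of_pos (by linarith [norm_nonneg x]) _
    calc α⁻¹ * ‖mFourierCoeff (fun k : UnitAddTorus (Fin d) => ((f (lap d k) : ℝ) : ℂ)) x‖
        ≤ α⁻¹ * (ε' / (1 + ‖x‖) ^ g) := mul_le_mul_of_nonneg_left (hf2 x) (inv_pos.2 hα0).le
      _ ≤ α⁻¹ * (ε * α / (1 + ‖x‖) ^ g) := by
          apply mul_le_mul_of_nonneg_left _ (inv_pos.2 hα0).le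
          apply div_le_div_of_nonneg_right _ hx.le
          rw [hε']
          exact min_le_right _ _
      _ = ε / (1 + ‖x‖) ^ g := by field_simp
  · intro ν _ hν lam hl1 hl2
    obtain ⟨c, hc⟩ : ∃ c, c = α * lam := ⟨_, rfl⟩
    have hlam0 : 0 < |lam| := hκ.trans_le hl1
    have hlam : lam ≠ 0 := abs_pos.1 hlam0
    have hc0 : c ≠ 0 := by rw [hc]; exact mul_ne_zero hα0.ne' hlam
    have hm : Measurable fun x : ℝ => c * x := measurable_const.mul measurable_id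
    have i1 : IsProbabilityMeasure (ν.map fun x => c * x) :=
      Measure.isProbabilityMeasure_map hm.aemeasurable
    have hvr := Vrs.main' hCay ν c hc0
    have hl3 : κ ^ 2 ≤ lam ^ 2 := by
      rw [← sq_abs lam]
      exact pow_le_pow_left₀ hκ.le hl1 2
    have hl4 : lam ^ 2 * κ ^ 2 ≤ 1 := by
      rw [← sq_abs lam, ← mul_pow]
      have : |lam| * κ ≤ 1 := by
        rwa [le_div_iff₀ hκ] at hl2
      exact pow_le_one₀ (by positivity) this
    have hmin : κ₂ ≤ min (c ^ 2) (1 / c ^ 2) := by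
      have hc2 : 0 < c ^ 2 := by positivity
      refine le_min ?_ ?_
      · refine (show κ₂ ≤ α ^ 2 * κ ^ 2 by rw [hκ₂]; exact min_le_left _ _).trans ?_
        rw [hc, mul_pow]
        exact mul_le_mul_of_nonneg_left hl3 (by positivity)
      · refine (show κ₂ ≤ κ ^ 2 / α ^ 2 by rw [hκ₂]; exact min_le_right _ _).trans ?_
        rw [div_le_div_iff₀ (by positivity) hc2, hc, mul_pow]
        have : 0 < α ^ 2 := by positivity
        nlinarith
    have hvr2 : κ₂ * κ ≤ vr (ν.map fun x => c * x) := by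
      refine le_trans ?_ hvr
      exact mul_le_mul hmin hν hκ.le (hκ₂0.le.trans hmin)
    have h1 := hSCA ν c d _ (hf3 (ν.map fun x => c * x) hvr2)
    filter_upwards [h1] with v hv
    have h2 := acik_one hv
    have h3 : α • (K - ContinuousMap.const _ a) + gK f d
        = α • ((K + gK (α⁻¹ • f) d) - ContinuousMap.const _ a) := by
      ext k
      change α * (K k - a) + f (lap d k) = α * ((K k + α⁻¹ * f (lap d k)) - a)
      field_simp
      ring
    rw [h3, hc] at h2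
    have h4 := hAFF d (K + gK (α⁻¹ • f) d) α a lam 0 (4 * d) v hα0 h2
    have h5 : a + 0 / α = a := by simp
    have h6 : a + 4 * d / α = b := by
      rw [hα]
      field_simp
      ring
    rwa [h5, h6] at h4

end

end Pool.Agent.U281.NP.Fin
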