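import Pool.Agent.U281.NP.Lev1

/-!
The gap at the first level, uniformly in the law of the disorder.
-/

namespace Pool.Agent.U281.NP.Gap

open MeasureTheory Filter Pool.Agent.W792.LL Pool.Agent.W792.WA Pool.Agent.N659.HB
open Pool.Agent.U281.NP.Step
open scoped Topology

noncomputable section

theorem main (hL1 : S_LEV1) (hCX : S_CX) (hUUC : S_UUC) (hPSI : S_PSI) (hFIX : S_FIX) :
    S_GAPN := by
  intro p κ D ε hp1 hp2 hκ0 hκ1 hD hε
  obtain ⟨ψ, R, η, q, hψ, hR, hη0, hη1, hq0, hq1, hηq, hH, hmean, hLp, hU⟩ :=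
    hL1 p κ D ε hp1 hp2 hκ0 hκ1 hD hε
  refine ⟨ψ, R, η, hψ, hR, hη0, hH, hmean, hLp, ?_⟩
  intro ν _ d K z ρ' _ hκν hρ' hKz hz s hs
  have i1 := prob_lev ψ R
  have hvr : 0 < vr ν := hκ0.trans_le hκν
  have hsup := conv_supp hψ hR hρ'
  have hx : ∀ k, ‖((K k : ℂ) - z)‖ ≤ D := by
    intro k
    refine (norm_sub_le _ _).trans ?_
    rw [Complex.norm_real]
    exact (add_le_add_left (K.norm_coe_le_norm k) _).trans hKz
  obtain ⟨q', hq'0, hq'1, hq'⟩ := hCX.2.2.1 (1 + R) D z.im hz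
  have hw : ∀ k, ∀ a ∈ Set.Icc (-(1 + R)) (1 + R), ‖wz K z k a‖ ≤ q' := by
    intro k a ha
    refine hq' _ a (hx k) ?_ (abs_le.2 ha)
    rw [Complex.sub_im, Complex.ofReal_im]
    linarith
  have hcont := hCX.2.2.2 d K z hz.le
  refine (hFIX ν d ((lev ψ R).conv ρ') (1 + R) q' (wz K z) hvr hsup hcont hq'0 hq'1 hw).2.2
    {t | ‖t‖ ≤ 1 - η} (isClosed_le continuous_norm continuous_const) ⟨0, ?_⟩ ?_ ?_ s hs
  · simp only [Set.mem_setOf_eq, norm_zero]
    linarith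
  · intro t ht
    simp only [Set.mem_setOf_eq] at ht
    linarith
  · intro t ht
    simp only [Set.mem_setOf_eq] at ht ⊢
    have hU1 : ‖UU ((lev ψ R).conv ρ') (wz K z) t‖ ≤ q := by
      rw [ContinuousMap.norm_le _ hq0]
      intro k
      rw [UU_apply hCX hUUC _ hsup K hz.le (by linarith) k]
      refine hU ρ' hρ' _ _ (hx k) ?_ ((t.norm_coe_le_norm k).trans ht)
      rw [Complex.sub_im, Complex.ofReal_im]
      linarith
    rw [ContinuousMap.norm_le _ (by linarith)]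
    intro k
    have h1 := ((hPSI ν d q _ _ hq0 hq1 hU1 hU1).1 k).2.2.2.2.2
    have h2 : ‖psi ν (UU ((lev ψ R).conv ρ') (wz K z) t) k‖ ^ 2 ≤ (1 - η) ^ 2 := by
      refine h1.trans ?_
      have h3 : 0 ≤ 1 - q ^ 2 := by nlinarith
      have h4 : (1 - q ^ 2) * κ ≤ (1 - q ^ 2) * vr ν := mul_le_mul_of_nonneg_left hκν h3
      nlinarith [sq_nonneg η]
    exact (pow_le_pow_iff_left₀ (norm_nonneg _) (by linarith) two_ne_zero).1 h2

end

end Pool.Agent.U281.NP.Gap
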