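import Pool.Agent.U281.NP.Tan2
import Pool.Agent.U281.NP.Cau

/-!
The first level: uniform absorption at all energies and momenta.
-/

namespace Pool.Agent.U281.NP.Lev1

open MeasureTheory Filter Pool.Agent.W792.LL Pool.Agent.W792.WA Pool.Agent.N659.HB
open Pool.Agent.U281.NP.Step
open scoped Topology

noncomputable section

/-- The integrand. -/
def Fi (x s : ℂ) (a : ℝ) : ℂ := cayx x a / (1 - cayx x a * s)

theorem Fi_meas (x s : ℂ) : Measurable (Fi x s) :=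
  (meas_cayx x).div (measurable_const.sub ((meas_cayx x).mul_const s))

theorem Fi_le (hCX : S_CX) {x s : ℂ} {η : ℝ} (hη : 0 < η) (hx : x.im ≤ 0) (hs : ‖s‖ ≤ 1 - η)
    (a : ℝ) : ‖Fi x s a‖ ≤ 1 / η := by
  have n1 := (hCX.1 x a hx).1
  have n2 : η ≤ ‖1 - cayx x a * s‖ := by
    have h1 : ‖(1 : ℂ)‖ - ‖cayx x a * s‖ ≤ ‖1 - cayx x a * s‖ := norm_sub_norm_le _ _
    rw [norm_one, norm_mul] at h1
    nlinarith [norm_nonneg s]
  unfold Fi
  rw [norm_div]
  exact div_le_div₀ zero_le_one n1 hη n2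

theorem Fi_add (x s : ℂ) (a b : ℝ) : Fi x s (a + b) = Fi (x + a) s b := by
  unfold Fi
  rw [cayx_add]

/-- Average over the future levels. -/
def gi (ρ : Measure ℝ) (x s : ℂ) (a : ℝ) : ℂ := ∫ b, Fi x s (a + b) ∂ρ

theorem gi_meas (ρ : Measure ℝ) [IsProbabilityMeasure ρ] (x s : ℂ) : Measurable (gi ρ x s) := by
  have h : StronglyMeasurable (Function.uncurry fun a b : ℝ => Fi x s (a + b)) :=
    ((Fi_meas x s).comp (measurable_fst.add measurable_snd)).stronglyMeasurable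
  exact h.integral_prod_right.measurable

theorem gi_le (hCX : S_CX) (ρ : Measure ℝ) [IsProbabilityMeasure ρ] {x s : ℂ} {η : ℝ} (hη : 0 < η)
    (hx : x.im ≤ 0) (hs : ‖s‖ ≤ 1 - η) (a : ℝ) : ‖gi ρ x s a‖ ≤ 1 / η := by
  unfold gi
  refine (norm_integral_le_of_norm_le_const (C := 1 / η)
    (ae_of_all _ fun b => Fi_le hCX hη hx hs _)).trans ?_
  simp

theorem Bs_conv (hCX : S_CX) {ψ : C(UnitAddCircle, ℝ)} {R : ℝ} (ρ : Measure ℝ)
    [IsProbabilityMeasure ρ] {η : ℝ} (hη : 0 < η) {x s : ℂ} (hx : x.im ≤ 0) (hs : ‖s‖ ≤ 1 - η) :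
    Bs ((lev ψ R).conv ρ) (cayx x) s = ∫ a, gi ρ x s a ∂(lev ψ R) := by
  have := prob_lev ψ R
  rw [conv_Bs hCX hη hx hs]
  unfold lev
  rw [integral_map (meas_lev ψ R).aemeasurable (gi_meas ρ x s).aestronglyMeasurable]
  refine integral_congr_ae (ae_of_all _ fun φ => ?_)
  change Bs ρ (cayx (x + ((R * ψ (φ : UnitAddCircle) : ℝ) : ℂ))) s = gi ρ x s (R * ψ (φ : UnitAddCircle))
  unfold gi Bs
  refine integral_congr_ae (ae_of_all _ fun b => ?_)
  change _ = Fi x s (R * ψ (φ : UnitAddCircle) + b)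
  rw [Fi_add]
  rfl

theorem cau_gi (hCX : S_CX) (ρ : Measure ℝ) [IsProbabilityMeasure ρ] {η γ : ℝ} (hη : 0 < η)
    (hγ : 0 < γ) {x s : ℂ} (hx : x.im < 0) (hs : ‖s‖ ≤ 1 - η) :
    ∫ a, gi ρ x s (γ * a) ∂(ProbabilityTheory.cauchyMeasure 0 1)
      = Bs ρ (cayx (x - γ * Complex.I)) s := by
  unfold gi
  rw [integral_integral_swap (f := fun a b => Fi x s (γ * a + b))]
  · unfold Bs
    refine integral_congr_ae (ae_of_all _ fun b => ?_)
    change ∫ a, Fi x s (γ * a + b) ∂(ProbabilityTheory.cauchyMeasure 0 1) = _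
    have h1 : ∀ a : ℝ, Fi x s (γ * a + b) = cayx (x + b) (γ * a) / (1 - cayx (x + b) (γ * a) * s) := by
      intro a
      rw [add_comm, Fi_add]
      rfl
    simp_rw [h1]
    rw [Pool.Agent.U281.NP.Cau.main γ (x + b) s hγ (by simpa using hx) (by linarith)]
    have h2 : cayx (x + b - γ * Complex.I) 0 = cayx (x - γ * Complex.I) b := by
      unfold cayx
      push_cast
      congr 1 <;> ring
    rw [h2]
  · refine Integrable.of_bound ?_ (1 / η) (ae_of_all _ fun p => Fi_le hCX hη hx.le hs _)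
    apply Measurable.aestronglyMeasurable
    exact (Fi_meas x s).comp ((measurable_const.mul measurable_fst).add measurable_snd)

/-- The contraction after the Cauchy average. -/
theorem cay_shift {D γ : ℝ} (hD : 0 < D) (hγ : 0 < γ) (hγ1 : γ ≤ 1) {x : ℂ} (hx : ‖x‖ ≤ D)
    (hxi : x.im ≤ 0) {b : ℝ} (hb : |b| ≤ 1) :
    ‖cayx (x - γ * Complex.I) b‖ ≤ 1 - 2 * γ * (1 / (D + 3) ^ 2) := by
  set y : ℂ := x - γ * Complex.I + b with hy
  have hyi : y.im ≤ -γ := by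
    rw [hy]
    simp
    exact hxi
  have hyn : ‖y - Complex.I‖ ≤ D + 3 := by
    have e1 : ‖y - Complex.I‖ ≤ ‖y‖ + ‖Complex.I‖ := norm_sub_le _ _
    have e2 : ‖y‖ ≤ ‖x - γ * Complex.I‖ + ‖(b : ℂ)‖ := norm_add_le _ _
    have e3 : ‖x - γ * Complex.I‖ ≤ ‖x‖ + ‖γ * Complex.I‖ := norm_sub_le _ _
    rw [norm_mul, Complex.norm_I, mul_one, Complex.norm_real, Real.norm_of_nonneg hγ.le] at e3
    rw [Complex.norm_I] at e1
    rw [Complex.norm_real, Real.norm_eq_abs] at e2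
    linarith
  have hy0 : y - Complex.I ≠ 0 := by
    intro h
    have := congrArg Complex.im h
    simp at this
    linarith
  have hpos : 0 < ‖y - Complex.I‖ := norm_pos_iff.2 hy0
  have h1 : ‖y + Complex.I‖ ^ 2 = ‖y - Complex.I‖ ^ 2 + 4 * y.im := by
    rw [Complex.sq_norm, Complex.sq_norm, Complex.normSq_apply, Complex.normSq_apply]
    simp
    ring
  have h2 : ‖cayx (x - γ * Complex.I) b‖ = ‖y + Complex.I‖ / ‖y - Complex.I‖ := by
    unfold cayx
    rw [norm_div]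
  have hc0 : 0 < 1 / (D + 3) ^ 2 := by positivity
  have hc1 : 1 / (D + 3) ^ 2 ≤ 1 / 9 := by
    apply one_div_le_one_div_of_le (by norm_num)
    nlinarith
  have h3 : ‖cayx (x - γ * Complex.I) b‖ ^ 2 ≤ 1 - 4 * γ * (1 / (D + 3) ^ 2) := by
    rw [h2, div_pow, h1, div_le_iff₀ (by positivity)]
    have e1 : 1 / (D + 3) ^ 2 * ‖y - Complex.I‖ ^ 2 ≤ 1 := by
      rw [one_div, inv_mul_le_iff₀ (by positivity), mul_one]
      exact pow_le_pow_left₀ hpos.le hyn 2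
    nlinarith
  have h4 : (1 - 4 * γ * (1 / (D + 3) ^ 2)) ≤ (1 - 2 * γ * (1 / (D + 3) ^ 2)) ^ 2 := by
    nlinarith [sq_nonneg (γ * (1 / (D + 3) ^ 2))]
  have h5 : 0 ≤ 1 - 2 * γ * (1 / (D + 3) ^ 2) := by nlinarith
  exact (pow_le_pow_iff_left₀ (norm_nonneg _) h5 two_ne_zero).1 (h3.trans h4)

theorem main (hSC1 : S_SC1) (hCX : S_CX) (hTAN : S_TAN2) : S_LEV1 := by
  intro p κ D ε hp1 hp2 hκ0 hκ1 hD hε
  obtain ⟨c, hc⟩ : ∃ c, c = 1 / (D + 3) ^ 2 := ⟨_, rfl⟩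
  have hc0 : 0 < c := by rw [hc]; positivity
  have hc1 : c ≤ 1 / 9 := by
    rw [hc]
    apply one_div_le_one_div_of_le (by norm_num)
    nlinarith
  obtain ⟨Q, hQ⟩ : ∃ Q, Q = (c ^ 2 * κ / 128) ^ (1 - p) := ⟨_, rfl⟩
  have hQ0 : 0 < Q := by rw [hQ]; positivity
  obtain ⟨ε', hε'⟩ : ∃ ε', ε' = ε * (p - 1) / (2 * Q) := ⟨_, rfl⟩
  have hε'0 : 0 < ε' := by
    rw [hε']
    have : 0 < p - 1 := by linarith
    positivity
  have h2p : 0 < 2 - p := by linarith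
  obtain ⟨γ, hγ⟩ : ∃ γ, γ = min 1 (ε' ^ (1 / (2 - p))) := ⟨_, rfl⟩
  have hγ0 : 0 < γ := by rw [hγ]; positivity
  have hγ1 : γ ≤ 1 := hγ ▸ min_le_left _ _
  have hγε : γ ^ (2 - p) ≤ ε' := by
    have h1 : γ ≤ ε' ^ (1 / (2 - p)) := hγ ▸ min_le_right _ _
    calc γ ^ (2 - p) ≤ (ε' ^ (1 / (2 - p))) ^ (2 - p) := Real.rpow_le_rpow hγ0.le h1 h2p.le
      _ = ε' := by
        rw [← Real.rpow_mul hε'0.le, one_div, inv_mul_cancel₀ h2p.ne', Real.rpow_one]
  have hγc0 : 0 < γ * c := by positivity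
  have hγc1 : γ * c ≤ 1 / 9 := by nlinarith
  obtain ⟨η, hη⟩ : ∃ η, η = γ * c * κ / 8 := ⟨_, rfl⟩
  have hη0 : 0 < η := by rw [hη]; positivity
  have hη1 : η ≤ 1 / 72 := by rw [hη]; nlinarith
  obtain ⟨τ, hτ⟩ : ∃ τ, τ = η * (γ * c) / 16 := ⟨_, rfl⟩
  have hτ0 : 0 < τ := by rw [hτ]; positivity
  have hτ1 : τ ≤ 1 / 2 := by rw [hτ]; nlinarith
  obtain ⟨ψ, R, h1, h2, h3, h4, h5, h6⟩ := hTAN γ τ hγ0 hτ0 hτ1
  refine ⟨ψ, R, η, 1 - γ * c, h1, h2, hη0, by linarith, by linarith, by linarith, ?_, h3, h4, ?_,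
    ?_⟩
  · rw [hη]
    have : γ * c ≤ 1 - (1 - γ * c) ^ 2 := by nlinarith
    nlinarith
  · refine (h6 p hp1 hp2).trans ?_
    have e1 : τ = γ ^ 2 * (c ^ 2 * κ / 128) := by
      rw [hτ, hη]
      ring
    have e2 : τ ^ (1 - p) = γ ^ (2 - 2 * p) * Q := by
      rw [e1, Real.mul_rpow (by positivity) (by positivity), hQ, ← Real.rpow_natCast γ 2,
        ← Real.rpow_mul hγ0.le]
      congr 2
      push_cast
      ring
    have e3 : γ ^ p * γ ^ (2 - 2 * p) = γ ^ (2 - p) := by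
      rw [← Real.rpow_add hγ0]
      congr 1
      ring
    have e4 : 2 * γ ^ p * τ ^ (1 - p) / (p - 1) = γ ^ (2 - p) * (2 * Q / (p - 1)) := by
      rw [e2, ← e3]
      ring
    rw [e4]
    have hp0 : 0 < p - 1 := by linarith
    calc γ ^ (2 - p) * (2 * Q / (p - 1)) ≤ ε' * (2 * Q / (p - 1)) :=
          mul_le_mul_of_nonneg_right hγε (by positivity)
      _ = ε := by
        rw [hε']
        field_simp
  · intro ρ' _ hρ' x s hx hxi hs
    have hs1 : ‖s‖ ≤ 1 := by linarith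
    have hs2 : ‖s‖ < 1 := by linarith
    have i1 := prob_lev ψ R
    -- the two averages
    have b1 := Bs_conv hCX (ψ := ψ) (R := R) ρ' hη0 hxi.le hs
    have b2 := cau_gi hCX ρ' hη0 hγ0 hxi hs
    have b3 := h5 (gi ρ' x s) (1 / η) (gi_meas ρ' x s) (gi_le hCX ρ' hη0 hxi.le hs)
    rw [← b1, b2] at b3
    have e0 : 2 * τ * (1 / η) = γ * c / 8 := by
      rw [hτ]
      field_simp
      ring
    rw [e0] at b3
    set B := Bs ((lev ψ R).conv ρ') (cayx x) s with hB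
    set B0 := Bs ρ' (cayx (x - γ * Complex.I)) s with hB0
    have hw : ∀ᵐ b ∂ρ', ‖cayx (x - γ * Complex.I) b‖ ≤ 1 - 2 * γ * c := by
      have : ∀ᵐ b ∂ρ', b ∈ Set.Icc (-1 : ℝ) 1 := by
        rw [ae_iff]; exact hρ'
      filter_upwards [this] with b hb
      rw [hc]
      exact cay_shift hD hγ0 hγ1 hx hxi.le (abs_le.2 hb)
    have hq0 : 0 ≤ 1 - 2 * γ * c := by nlinarith
    obtain ⟨-, k1, k2, k3, k4⟩ := hSC1 ρ' (cayx (x - γ * Complex.I)) (1 - 2 * γ * c) s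
      (meas_cayx _) hq0 (by nlinarith) hw hs1 (by nlinarith [norm_nonneg s])
    -- `1 + s B0 = 1 / (1 - U0 s)`
    set U0 := Us ρ' (cayx (x - γ * Complex.I)) s with hU0
    have k5 : (1 + s * B0) * (1 - U0 * s) = 1 := by
      have e1 : U0 / (1 - U0 * s) * (1 - U0 * s) = U0 := div_mul_cancel₀ _ k3
      have e2 : B0 = U0 / (1 - U0 * s) := k4.symm
      rw [← e2] at e1
      linear_combination s * e1
    have k6 : ‖1 - U0 * s‖ ≤ 2 := by
      refine (norm_sub_le _ _).trans ?_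
      rw [norm_one, norm_mul]
      nlinarith [norm_nonneg s, norm_nonneg U0]
    have k7 : 1 / 2 ≤ ‖1 + s * B0‖ := by
      have := congrArg norm k5
      rw [norm_mul, norm_one] at this
      by_contra h
      push Not at h
      nlinarith [norm_nonneg (1 - U0 * s), norm_nonneg (1 + s * B0)]
    have k8 : 1 / 4 ≤ ‖1 + s * B‖ := by
      have e1 : 1 + s * B0 = (1 + s * B) - s * (B - B0) := by ring
      have e2 := norm_sub_le (1 + s * B) (s * (B - B0))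
      rw [← e1, norm_mul] at e2
      nlinarith [norm_nonneg s, norm_nonneg (B - B0)]
    have k9 : 1 + s * B ≠ 0 := by
      intro h
      rw [h, norm_zero] at k8
      linarith
    have k10 : 1 + s * B0 ≠ 0 := by
      intro h
      rw [h, norm_zero] at k7
      linarith
    have k11 : Us ((lev ψ R).conv ρ') (cayx x) s
        = U0 + (B - B0) / ((1 + s * B) * (1 + s * B0)) := by
      have e1 : Us ((lev ψ R).conv ρ') (cayx x) s = B / (1 + s * B) := rfl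
      have e2 : U0 = B0 / (1 + s * B0) := rfl
      rw [e1, e2, div_add_div _ _ k10 (mul_ne_zero k9 k10), div_eq_div_iff k9
        (mul_ne_zero k10 (mul_ne_zero k9 k10))]
      ring
    rw [k11]
    have k12 : ‖(B - B0) / ((1 + s * B) * (1 + s * B0))‖ ≤ γ * c := by
      rw [norm_div, norm_mul]
      have e1 : 1 / 8 ≤ ‖1 + s * B‖ * ‖1 + s * B0‖ := by nlinarith
      rw [div_le_iff₀ (by linarith)]
      nlinarith
    refine (norm_add_le _ _).trans ?_
    linarith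

end

end Pool.Agent.U281.NP.Lev1
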