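import Pool.Agent.N659.HB.Stm5
import Pool.Agent.U281.NP.Step

/-!
Level functions with law close to the Cauchy law (truncated tangent).
-/

namespace Pool.Agent.U281.NP.Tan

open MeasureTheory Filter Pool.Agent.W792.LL Pool.Agent.W792.WA Pool.Agent.N659.HB
open scoped Topology

noncomputable section

/-! ### The triangle wave -/

/-- The triangle wave. -/
def tw (φ : UnitAddCircle) : ℝ := 2 * ‖φ‖ - 1 / 2

theorem tw_cont : Continuous tw := by
  unfold tw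
  fun_prop

theorem tw_mem (φ : UnitAddCircle) : -(1 / 2) ≤ tw φ ∧ tw φ ≤ 1 / 2 := by
  have h1 := norm_nonneg φ
  have h2 : ‖φ‖ ≤ 1 / 2 := by
    have := AddCircle.norm_le_half_period (1 : ℝ) one_ne_zero (x := φ)
    rwa [abs_one] at this
  unfold tw
  constructor <;> linarith

theorem tw_left {φ : ℝ} (h0 : 0 ≤ φ) (h1 : φ ≤ 1 / 2) :
    tw (φ : UnitAddCircle) = 2 * φ - 1 / 2 := by
  have h : ‖(φ : UnitAddCircle)‖ = |φ| :=
    (AddCircle.norm_coe_eq_abs_iff (1 : ℝ) one_ne_zero).2 (by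
      rw [abs_of_nonneg h0, abs_one]; exact h1)
  unfold tw
  rw [h, abs_of_nonneg h0]

theorem tw_right {φ : ℝ} (h0 : 1 / 2 ≤ φ) (h1 : φ ≤ 1) :
    tw (φ : UnitAddCircle) = 3 / 2 - 2 * φ := by
  have e : (φ : UnitAddCircle) = ((φ - 1 : ℝ) : UnitAddCircle) := by
    rw [AddCircle.coe_sub, AddCircle.coe_period, sub_zero]
  have h : ‖((φ - 1 : ℝ) : UnitAddCircle)‖ = |φ - 1| :=
    (AddCircle.norm_coe_eq_abs_iff (1 : ℝ) one_ne_zero).2 (by
      rw [abs_of_nonpos (by linarith), abs_one]; linarith)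
  unfold tw
  rw [e, h, abs_of_nonpos (by linarith)]
  ring

/-- Integrals of functions of the triangle wave. -/
theorem int_tw {E : Type} [NormedAddCommGroup E] [NormedSpace ℝ E] [MeasurableSpace E]
    [BorelSpace E] [SecondCountableTopology E] (g : ℝ → E) (hg : Measurable g) (B : ℝ)
    (hB : ∀ v, ‖g v‖ ≤ B) :
    ∫ φ in Set.Ioc (0 : ℝ) 1, g (tw (φ : UnitAddCircle)) = ∫ v in (-(1 / 2 : ℝ))..(1 / 2), g v := by
  have hm : Measurable fun φ : ℝ => g (tw (φ : UnitAddCircle)) :=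
    hg.comp (tw_cont.comp (AddCircle.continuous_mk' (1 : ℝ))).measurable
  have hi : ∀ a b : ℝ, IntervalIntegrable (fun φ : ℝ => g (tw (φ : UnitAddCircle))) volume a b := by
    intro a b
    rw [intervalIntegrable_iff]
    have : IsFiniteMeasure (volume.restrict (Set.uIoc a b)) := by
      unfold Set.uIoc; infer_instance
    exact Integrable.of_bound hm.aestronglyMeasurable B (ae_of_all _ fun _ => hB _)
  rw [← intervalIntegral.integral_of_le zero_le_one,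
    ← intervalIntegral.integral_add_adjacent_intervals (hi 0 (1 / 2)) (hi (1 / 2) 1)]
  have e1 : ∫ φ in (0 : ℝ)..(1 / 2), g (tw (φ : UnitAddCircle))
      = (1 / 2 : ℝ) • ∫ v in (-(1 / 2 : ℝ))..(1 / 2), g v := by
    have h1 : ∫ φ in (0 : ℝ)..(1 / 2), g (tw (φ : UnitAddCircle))
        = ∫ φ in (0 : ℝ)..(1 / 2), g (2 * φ - 1 / 2) := by
      refine intervalIntegral.integral_congr fun φ hφ => ?_
      rw [Set.uIcc_of_le (by norm_num)] at hφ
      change g (tw (φ : UnitAddCircle)) = g (2 * φ - 1 / 2)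
      rw [tw_left hφ.1 hφ.2]
    rw [h1, intervalIntegral.integral_comp_mul_sub _ two_ne_zero]
    norm_num
  have e2 : ∫ φ in (1 / 2 : ℝ)..1, g (tw (φ : UnitAddCircle))
      = (1 / 2 : ℝ) • ∫ v in (-(1 / 2 : ℝ))..(1 / 2), g v := by
    have h1 : ∫ φ in (1 / 2 : ℝ)..1, g (tw (φ : UnitAddCircle))
        = ∫ φ in (1 / 2 : ℝ)..1, g (3 / 2 - 2 * φ) := by
      refine intervalIntegral.integral_congr fun φ hφ => ?_
      rw [Set.uIcc_of_le (by norm_num)] at hφ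
      change g (tw (φ : UnitAddCircle)) = g (3 / 2 - 2 * φ)
      rw [tw_right hφ.1 hφ.2]
    rw [h1, intervalIntegral.integral_comp_sub_mul _ two_ne_zero]
    norm_num
  rw [e1, e2, ← add_smul]
  norm_num

/-! ### The truncated tangent -/

/-- Clamp. -/
def cl (v : ℝ) : ℝ := max (-(1 / 2)) (min (1 / 2) v)

theorem cl_cont : Continuous cl := by
  unfold cl
  fun_prop

theorem cl_mem (v : ℝ) : -(1 / 2) ≤ cl v ∧ cl v ≤ 1 / 2 := by
  unfold cl
  exact ⟨le_max_left _ _, max_le (by norm_num) (min_le_left _ _)⟩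

theorem cl_id {v : ℝ} (h0 : -(1 / 2) ≤ v) (h1 : v ≤ 1 / 2) : cl v = v := by
  unfold cl
  rw [min_eq_right h1, max_eq_right h0]

theorem cl_lip (u v : ℝ) : |cl u - cl v| ≤ |u - v| := by
  unfold cl
  refine (abs_max_sub_max_le_max _ _ _ _).trans ?_
  refine max_le (by simp) ?_
  refine (abs_min_sub_min_le_max _ _ _ _).trans ?_
  exact max_le (by simp) le_rfl

/-- The argument of the tangent. -/
def ar (τ v : ℝ) : ℝ := Real.pi * (1 - τ) * cl v

theorem ar_abs {τ : ℝ} (h0 : 0 < τ) (h1 : τ ≤ 1 / 2) (v : ℝ) :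
    |ar τ v| ≤ Real.pi * (1 - τ) / 2 := by
  have h2 := cl_mem v
  have h3 : |cl v| ≤ 1 / 2 := abs_le.2 h2
  have h4 : 0 ≤ Real.pi * (1 - τ) := mul_nonneg Real.pi_pos.le (by linarith)
  unfold ar
  rw [abs_mul, abs_of_nonneg h4]
  nlinarith

theorem th_lt {τ : ℝ} (h0 : 0 < τ) : Real.pi * (1 - τ) / 2 < Real.pi / 2 := by
  have := Real.pi_pos
  nlinarith

theorem th_pos {τ : ℝ} (h1 : τ ≤ 1 / 2) : 0 < Real.pi * (1 - τ) / 2 := by
  have := Real.pi_pos
  have : 0 < 1 - τ := by linarith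
  positivity

theorem ar_mem {τ : ℝ} (h0 : 0 < τ) (h1 : τ ≤ 1 / 2) (v : ℝ) :
    ar τ v ∈ Set.Ioo (-(Real.pi / 2)) (Real.pi / 2) := by
  have h2 := abs_le.1 (ar_abs h0 h1 v)
  have h3 := th_lt h0
  constructor <;> linarith

/-- The truncated tangent. -/
def Tc (τ v : ℝ) : ℝ := Real.tan (ar τ v)

theorem Tc_cont {τ : ℝ} (h0 : 0 < τ) (h1 : τ ≤ 1 / 2) : Continuous (Tc τ) := by
  unfold Tc
  refine Real.continuousOn_tan_Ioo.comp_continuous ?_ (ar_mem h0 h1)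
  unfold ar
  exact continuous_const.mul cl_cont

/-- The bound. -/
def Ab (τ : ℝ) : ℝ := Real.tan (Real.pi * (1 - τ) / 2)

theorem Ab_pos {τ : ℝ} (h0 : 0 < τ) (h1 : τ ≤ 1 / 2) : 0 < Ab τ :=
  Real.tan_pos_of_pos_of_lt_pi_div_two (th_pos h1) (th_lt h0)

theorem Tc_le {τ : ℝ} (h0 : 0 < τ) (h1 : τ ≤ 1 / 2) (v : ℝ) : |Tc τ v| ≤ Ab τ := by
  have h2 := abs_le.1 (ar_abs h0 h1 v)
  have h3 := th_lt h0
  have h4 := th_pos h1
  have hm := Real.strictMonoOn_tan.monotoneOn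
  have m1 : Real.pi * (1 - τ) / 2 ∈ Set.Ioo (-(Real.pi / 2)) (Real.pi / 2) := by
    constructor <;> linarith
  have m2 : -(Real.pi * (1 - τ) / 2) ∈ Set.Ioo (-(Real.pi / 2)) (Real.pi / 2) := by
    constructor <;> linarith
  rw [abs_le]
  unfold Tc Ab
  constructor
  · rw [← Real.tan_neg]
    exact hm m2 (ar_mem h0 h1 v) h2.1
  · exact hm (ar_mem h0 h1 v) m1 h2.2

/-- The level function. -/
def psi0 (τ : ℝ) (h0 : 0 < τ) (h1 : τ ≤ 1 / 2) : C(UnitAddCircle, ℝ) where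
  toFun φ := Tc τ (tw φ) / Ab τ
  continuous_toFun := ((Tc_cont h0 h1).comp tw_cont).div_const _

theorem inj_aux {τ : ℝ} (h0 : 0 < τ) (h1 : τ ≤ 1 / 2) {u v : ℝ} (hu : -(1 / 2) ≤ u ∧ u ≤ 1 / 2)
    (hv : -(1 / 2) ≤ v ∧ v ≤ 1 / 2) (h : Tc τ u = Tc τ v) : u = v := by
  have h2 := Real.injOn_tan (ar_mem h0 h1 u) (ar_mem h0 h1 v) h
  unfold ar at h2
  rw [cl_id hu.1 hu.2, cl_id hv.1 hv.2] at h2
  have h3 : Real.pi * (1 - τ) ≠ 0 := (mul_pos Real.pi_pos (by linarith)).ne'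
  exact mul_left_cancel₀ h3 h2

theorem isLv (τ : ℝ) (h0 : 0 < τ) (h1 : τ ≤ 1 / 2) : IsLv (psi0 τ h0 h1) := by
  have hA := Ab_pos h0 h1
  constructor
  · intro t
    change |Tc τ (tw t) / Ab τ| ≤ 1
    rw [abs_div, abs_of_pos hA, div_le_one hA]
    exact Tc_le h0 h1 _
  · intro a
    have hsub : {φ : ℝ | φ ∈ Set.Ioc (0 : ℝ) 1 ∧ psi0 τ h0 h1 (φ : UnitAddCircle) = a}
        ⊆ {φ : ℝ | φ ∈ Set.Icc (0 : ℝ) (1 / 2) ∧ psi0 τ h0 h1 (φ : UnitAddCircle) = a}
          ∪ {φ : ℝ | φ ∈ Set.Icc (1 / 2 : ℝ) 1 ∧ psi0 τ h0 h1 (φ : UnitAddCircle) = a} := by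
      rintro φ ⟨hφ, hφ'⟩
      rcases le_total φ (1 / 2) with h | h
      · exact Or.inl ⟨⟨hφ.1.le, h⟩, hφ'⟩
      · exact Or.inr ⟨⟨h, hφ.2⟩, hφ'⟩
    have key : ∀ φ φ' : ℝ, psi0 τ h0 h1 (φ : UnitAddCircle) = a →
        psi0 τ h0 h1 (φ' : UnitAddCircle) = a → tw (φ : UnitAddCircle) = tw (φ' : UnitAddCircle) := by
      intro φ φ' e1 e2
      have e3 : Tc τ (tw (φ : UnitAddCircle)) / Ab τ = Tc τ (tw (φ' : UnitAddCircle)) / Ab τ :=
        e1.trans e2.symm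
      rw [div_left_inj' hA.ne'] at e3
      exact inj_aux h0 h1 (tw_mem _) (tw_mem _) e3
    refine measure_mono_null hsub (measure_union_null ?_ ?_)
    · refine Set.Subsingleton.measure_zero ?_ _
      rintro φ ⟨hφ, e1⟩ φ' ⟨hφ', e2⟩
      have := key φ φ' e1 e2
      rw [tw_left hφ.1 hφ.2, tw_left hφ'.1 hφ'.2] at this
      linarith
    · refine Set.Subsingleton.measure_zero ?_ _
      rintro φ ⟨hφ, e1⟩ φ' ⟨hφ', e2⟩
      have := key φ φ' e1 e2
      rw [tw_right hφ.1 hφ.2, tw_right hφ'.1 hφ'.2] at this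
      linarith

/-! ### Hölder bound -/

theorem tan_lip {θ : ℝ} (hθ : 0 < θ) (hθ' : θ < Real.pi / 2) {x y : ℝ} (hx : |x| ≤ θ)
    (hy : |y| ≤ θ) : |Real.tan x - Real.tan y| ≤ 1 / Real.cos θ ^ 2 * |x - y| := by
  have hc : 0 < Real.cos θ := Real.cos_pos_of_mem_Ioo ⟨by linarith, hθ'⟩
  have hcx : ∀ x ∈ Set.Icc (-θ) θ, Real.cos θ ≤ Real.cos x := by
    intro x hx
    rw [← Real.cos_abs x]
    exact Real.cos_le_cos_of_nonneg_of_le_pi (abs_nonneg _) (by linarith [Real.pi_pos])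
      (abs_le.2 hx)
  have h := Convex.norm_image_sub_le_of_norm_hasDerivWithin_le (f := Real.tan)
    (f' := fun x => 1 / Real.cos x ^ 2) (C := 1 / Real.cos θ ^ 2) (s := Set.Icc (-θ) θ)
    (x := y) (y := x) (fun x hx => by
      have h1 := hcx x hx
      exact (Real.hasDerivAt_tan (by linarith)).hasDerivWithinAt)
    (fun x hx => by
      have h1 := hcx x hx
      rw [Real.norm_of_nonneg (by positivity)]
      apply one_div_le_one_div_of_le (by positivity)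
      exact pow_le_pow_left₀ hc.le h1 2) (convex_Icc _ _) (abs_le.1 hy) (abs_le.1 hx)
  simpa [Real.norm_eq_abs] using h

theorem circ_le (s t : ℝ) : ‖(s : UnitAddCircle) - (t : UnitAddCircle)‖ ≤ |s - t| := by
  rw [← AddCircle.coe_sub, UnitAddCircle.norm_eq]
  have := round_le (s - t) 0
  simpa using this

theorem holder (τ : ℝ) (h0 : 0 < τ) (h1 : τ ≤ 1 / 2) : ∃ C : ℝ, ∀ s t : ℝ,
    |psi0 τ h0 h1 (s : UnitAddCircle) - psi0 τ h0 h1 (t : UnitAddCircle)|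
      ≤ C * |s - t| ^ (2 / 3 : ℝ) := by
  have hA := Ab_pos h0 h1
  set θ := Real.pi * (1 - τ) / 2 with hθ
  have hθ0 : 0 < θ := th_pos h1
  have hθ1 : θ < Real.pi / 2 := th_lt h0
  have hc : 0 < Real.cos θ := Real.cos_pos_of_mem_Ioo ⟨by linarith, hθ1⟩
  obtain ⟨L, hL⟩ : ∃ L, L = 1 / Real.cos θ ^ 2 * (2 * θ * 2) / Ab τ := ⟨_, rfl⟩
  have hL0 : 0 < L := by rw [hL]; positivity
  have hlip : ∀ s t : ℝ, |psi0 τ h0 h1 (s : UnitAddCircle) - psi0 τ h0 h1 (t : UnitAddCircle)|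
      ≤ L * |s - t| := by
    intro s t
    change |Tc τ (tw s) / Ab τ - Tc τ (tw t) / Ab τ| ≤ _
    rw [← sub_div, abs_div, abs_of_pos hA, div_le_iff₀ hA]
    have e1 := tan_lip hθ0 hθ1 (ar_abs h0 h1 (tw (s : UnitAddCircle)))
      (ar_abs h0 h1 (tw (t : UnitAddCircle)))
    have e2 : |ar τ (tw (s : UnitAddCircle)) - ar τ (tw (t : UnitAddCircle))|
        ≤ 2 * θ * 2 * |s - t| := by
      unfold ar
      rw [← mul_sub, abs_mul, abs_of_pos (by linarith : 0 < Real.pi * (1 - τ))]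
      have e3 := cl_lip (tw (s : UnitAddCircle)) (tw (t : UnitAddCircle))
      have e4 : |tw (s : UnitAddCircle) - tw (t : UnitAddCircle)| ≤ 2 * |s - t| := by
        unfold tw
        have e5 := abs_norm_sub_norm_le (s : UnitAddCircle) (t : UnitAddCircle)
        have e6 := circ_le s t
        have e7 : 2 * ‖(s : UnitAddCircle)‖ - 1 / 2 - (2 * ‖(t : UnitAddCircle)‖ - 1 / 2)
            = 2 * (‖(s : UnitAddCircle)‖ - ‖(t : UnitAddCircle)‖) := by ring
        rw [e7, abs_mul, abs_two]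
        linarith
      have e8 : Real.pi * (1 - τ) = 2 * θ := by rw [hθ]; ring
      rw [e8]
      have e9 : 0 ≤ 2 * θ := by positivity
      nlinarith
    have e3 : 0 ≤ 1 / Real.cos θ ^ 2 := by positivity
    calc |Tc τ (tw (s : UnitAddCircle)) - Tc τ (tw (t : UnitAddCircle))|
        ≤ 1 / Real.cos θ ^ 2 * |ar τ (tw (s : UnitAddCircle)) - ar τ (tw (t : UnitAddCircle))| := e1
      _ ≤ 1 / Real.cos θ ^ 2 * (2 * θ * 2 * |s - t|) := mul_le_mul_of_nonneg_left e2 e3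
      _ = L * |s - t| * Ab τ := by
          rw [hL]
          field_simp
  refine ⟨L + 2, fun s t => ?_⟩
  rcases le_total |s - t| 1 with h | h
  · have e1 : |s - t| ≤ |s - t| ^ (2 / 3 : ℝ) := by
      rcases (abs_nonneg (s - t)).eq_or_lt with h2 | h2
      · rw [← h2, Real.zero_rpow (by norm_num)]
      · calc |s - t| = |s - t| ^ (1 : ℝ) := (Real.rpow_one _).symm
          _ ≤ |s - t| ^ (2 / 3 : ℝ) := Real.rpow_le_rpow_of_exponent_ge h2 h (by norm_num)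
    have e2 : 0 ≤ |s - t| ^ (2 / 3 : ℝ) := by positivity
    have e3 := hlip s t
    nlinarith
  · have e1 : 1 ≤ |s - t| ^ (2 / 3 : ℝ) := Real.one_le_rpow h (by norm_num)
    have e2 := (isLv τ h0 h1).bound (s : UnitAddCircle)
    have e3 := (isLv τ h0 h1).bound (t : UnitAddCircle)
    have e4 := abs_sub (psi0 τ h0 h1 (s : UnitAddCircle)) (psi0 τ h0 h1 (t : UnitAddCircle))
    nlinarith

/-! ### Mean -/

theorem Tc_neg (τ v : ℝ) : Tc τ (-v) = -Tc τ v := by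
  have h : cl (-v) = -cl v := by
    unfold cl
    rcases le_total v (-(1 / 2)) with h | h
    · rw [min_eq_left (by linarith : (1 / 2 : ℝ) ≤ -v), max_eq_right (by norm_num),
        min_eq_right (by linarith : v ≤ (1 / 2 : ℝ)), max_eq_left h]
      ring
    · rcases le_total v (1 / 2) with h' | h'
      · rw [min_eq_right (by linarith : -v ≤ (1 / 2 : ℝ)), max_eq_right (by linarith),
          min_eq_right h', max_eq_right h]
      · rw [min_eq_right (by linarith : -v ≤ (1 / 2 : ℝ)), max_eq_left (by linarith),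
          min_eq_left h', max_eq_right (by norm_num)]
  unfold Tc ar
  rw [h, mul_neg, Real.tan_neg]

theorem mean (τ : ℝ) (h0 : 0 < τ) (h1 : τ ≤ 1 / 2) :
    (∫ φ in Set.Ioc (0 : ℝ) 1, psi0 τ h0 h1 (φ : UnitAddCircle)) = 0 := by
  have hA := Ab_pos h0 h1
  change (∫ φ in Set.Ioc (0 : ℝ) 1, (fun v => Tc τ v / Ab τ) (tw (φ : UnitAddCircle))) = 0
  rw [int_tw (fun v => Tc τ v / Ab τ) ((Tc_cont h0 h1).div_const _).measurable 1 (fun v => by
    rw [Real.norm_eq_abs, abs_div, abs_of_pos hA, div_le_one hA]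
    exact Tc_le h0 h1 _)]
  have h2 := intervalIntegral.integral_comp_neg (a := -(1 / 2 : ℝ)) (b := 1 / 2)
    (fun v => Tc τ v / Ab τ)
  rw [neg_neg] at h2
  have h3 : (∫ x in (-(1 / 2 : ℝ))..(1 / 2), (fun v => Tc τ v / Ab τ) (-x))
      = -∫ x in (-(1 / 2 : ℝ))..(1 / 2), (fun v => Tc τ v / Ab τ) x := by
    rw [← intervalIntegral.integral_neg]
    congr 1
    ext x
    simp only
    rw [Tc_neg]
    ring
  rw [h3] at h2
  linarith

end

end Pool.Agent.U281.NP.Tan
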