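import Pool.Agent.U281.NP.Tan

/-!
The law of the truncated tangent and the Cauchy law; moments.
-/

namespace Pool.Agent.U281.NP.Tan

open MeasureTheory Filter Pool.Agent.W792.LL Pool.Agent.W792.WA Pool.Agent.N659.HB
open scoped Topology

noncomputable section

theorem tan_meas : Measurable Real.tan := by
  have h : Real.tan = fun x => Real.sin x / Real.cos x := by
    funext x
    exact Real.tan_eq_sin_div_cos x
  rw [h]
  exact Real.measurable_sin.div Real.measurable_cos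

theorem lev_int {τ : ℝ} (h0 : 0 < τ) (h1 : τ ≤ 1 / 2) (γ : ℝ) (f : ℝ → ℂ) (F : ℝ)
    (hf : Measurable f) (hF : ∀ a, ‖f a‖ ≤ F) :
    ∫ a, f a ∂(lev (psi0 τ h0 h1) (γ * Ab τ))
      = (1 - τ)⁻¹ • ∫ v in (-((1 - τ) / 2))..((1 - τ) / 2), f (γ * Real.tan (Real.pi * v)) := by
  have hA := Ab_pos h0 h1
  unfold lev
  rw [integral_map (Pool.Agent.U281.NP.Step.meas_lev _ _).aemeasurable hf.aestronglyMeasurable]
  have e1 : ∀ φ : ℝ, f (γ * Ab τ * psi0 τ h0 h1 (φ : UnitAddCircle))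
      = (fun v => f (γ * Tc τ v)) (tw (φ : UnitAddCircle)) := by
    intro φ
    change f (γ * Ab τ * (Tc τ (tw φ) / Ab τ)) = f (γ * Tc τ (tw φ))
    congr 1
    field_simp
  simp_rw [e1]
  rw [int_tw (fun v => f (γ * Tc τ v))
    (hf.comp (measurable_const.mul (Tc_cont h0 h1).measurable)) F (fun v => hF _)]
  have e2 : ∫ v in (-(1 / 2 : ℝ))..(1 / 2), f (γ * Tc τ v)
      = ∫ v in (-(1 / 2 : ℝ))..(1 / 2), (fun u => f (γ * Real.tan (Real.pi * u))) ((1 - τ) * v) := by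
    refine intervalIntegral.integral_congr fun v hv => ?_
    rw [Set.uIcc_of_le (by norm_num)] at hv
    change f (γ * Tc τ v) = f (γ * Real.tan (Real.pi * ((1 - τ) * v)))
    unfold Tc ar
    rw [cl_id hv.1 hv.2, mul_assoc]
  rw [e2, intervalIntegral.integral_comp_mul_left (fun u => f (γ * Real.tan (Real.pi * u)))
    (by linarith : (1 - τ) ≠ 0)]
  congr 2 <;> ring

theorem cauchy_int (γ : ℝ) (f : ℝ → ℂ) :
    ∫ a, f (γ * a) ∂(ProbabilityTheory.cauchyMeasure 0 1)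
      = ∫ v in (-(1 / 2 : ℝ))..(1 / 2), f (γ * Real.tan (Real.pi * v)) := by
  rw [ProbabilityTheory.cauchyMeasure_of_scale_ne_zero 0 one_ne_zero,
    integral_withDensity_eq_integral_toReal_smul (by fun_prop)
      (ae_of_all _ fun v => by
        rw [ProbabilityTheory.cauchyPDF_def]
        exact ENNReal.ofReal_lt_top)]
  have e : ∀ v : ℝ, (ProbabilityTheory.cauchyPDF 0 1 v).toReal • f (γ * v) =
      (Real.pi⁻¹ * (1 + v ^ 2)⁻¹) • f (γ * v) := by
    intro v
    rw [ProbabilityTheory.cauchyPDF_def, ENNReal.toReal_ofReal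
      (ProbabilityTheory.cauchyPDF_pos 0 one_ne_zero v).le,
      ProbabilityTheory.cauchyPDFReal_def]
    congr 1
    simp
    ring
  simp only [e]
  rw [← setIntegral_univ, ← Real.image_tan_Ioo,
    integral_image_eq_integral_abs_deriv_smul measurableSet_Ioo (f' := fun x => 1 / Real.cos x ^ 2)
      (fun x hx => (Real.hasDerivAt_tan (Real.cos_pos_of_mem_Ioo hx).ne').hasDerivWithinAt)
      Real.injOn_tan]
  have e3 : ∀ x ∈ Set.Ioo (-(Real.pi / 2)) (Real.pi / 2), |1 / Real.cos x ^ 2| •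
      ((Real.pi⁻¹ * (1 + Real.tan x ^ 2)⁻¹) • f (γ * Real.tan x))
      = Real.pi⁻¹ • f (γ * Real.tan x) := by
    intro x hx
    have hc := Real.cos_pos_of_mem_Ioo hx
    rw [smul_smul]
    congr 1
    rw [Real.inv_one_add_tan_sq hc.ne', abs_of_pos (by positivity)]
    field_simp
  rw [setIntegral_congr_fun measurableSet_Ioo e3, integral_smul, ← integral_Ioc_eq_integral_Ioo,
    ← intervalIntegral.integral_of_le (by linarith [Real.pi_pos])]
  have e4 := intervalIntegral.integral_comp_mul_left (a := -(1 / 2 : ℝ)) (b := 1 / 2)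
    (fun x => f (γ * Real.tan x)) Real.pi_ne_zero
  rw [e4]
  congr 2 <;> ring

theorem tv {τ : ℝ} (h0 : 0 < τ) (h1 : τ ≤ 1 / 2) (γ : ℝ) (f : ℝ → ℂ) (F : ℝ)
    (hf : Measurable f) (hF : ∀ a, ‖f a‖ ≤ F) :
    ‖∫ a, f a ∂(lev (psi0 τ h0 h1) (γ * Ab τ))
      - ∫ a, f (γ * a) ∂(ProbabilityTheory.cauchyMeasure 0 1)‖ ≤ 2 * τ * F := by
  rw [lev_int h0 h1 γ f F hf hF, cauchy_int]
  set h : ℝ → ℂ := fun v => f (γ * Real.tan (Real.pi * v)) with hh
  have hF0 : 0 ≤ F := (norm_nonneg _).trans (hF 0)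
  have hm : Measurable h := hf.comp (measurable_const.mul (tan_meas.comp
    (measurable_const.mul measurable_id)))
  have hi : ∀ a b : ℝ, IntervalIntegrable h volume a b := by
    intro a b
    rw [intervalIntegrable_iff]
    have : IsFiniteMeasure (volume.restrict (Set.uIoc a b)) := by
      unfold Set.uIoc; infer_instance
    exact Integrable.of_bound hm.aestronglyMeasurable F (ae_of_all _ fun _ => hF _)
  have hb : ∀ a b : ℝ, ‖∫ v in a..b, h v‖ ≤ F * |b - a| := fun a b =>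
    intervalIntegral.norm_integral_le_of_norm_le_const fun x _ => hF _
  have s1 := intervalIntegral.integral_add_adjacent_intervals
    (hi (-(1 / 2)) (-((1 - τ) / 2))) (hi (-((1 - τ) / 2)) ((1 - τ) / 2))
  have s2 := intervalIntegral.integral_add_adjacent_intervals
    (hi (-(1 / 2)) ((1 - τ) / 2)) (hi ((1 - τ) / 2) (1 / 2))
  have b1 := hb (-(1 / 2)) (-((1 - τ) / 2))
  have b2 := hb (-((1 - τ) / 2)) ((1 - τ) / 2)
  have b3 := hb ((1 - τ) / 2) (1 / 2)
  rw [abs_of_nonneg (by linarith)] at b1 b2 b3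
  rw [← s2, ← s1]
  set J := ∫ v in (-((1 - τ) / 2))..((1 - τ) / 2), h v
  set A := ∫ v in (-(1 / 2 : ℝ))..(-((1 - τ) / 2)), h v
  set B := ∫ v in ((1 - τ) / 2)..(1 / 2 : ℝ), h v
  have e1 : (1 - τ)⁻¹ • J - (A + J + B) = (τ / (1 - τ)) • J - A - B := by
    have : (1 - τ)⁻¹ = τ / (1 - τ) + 1 := by
      field_simp [show (1 - τ) ≠ 0 by linarith]
      ring
    rw [this, add_smul, one_smul]
    ring
  rw [e1]
  have e2 : ‖(τ / (1 - τ)) • J‖ ≤ τ * F := by
    rw [norm_smul, Real.norm_of_nonneg (div_nonneg h0.le (by linarith))]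
    have h3 : (τ / (1 - τ)) * (F * ((1 - τ) / 2 - -((1 - τ) / 2))) = τ * F := by
      field_simp [show (1 - τ) ≠ 0 by linarith]
      ring
    rw [← h3]
    exact mul_le_mul_of_nonneg_left b2 (div_nonneg h0.le (by linarith))
  have e3 := norm_sub_le ((τ / (1 - τ)) • J - A) B
  have e4 := norm_sub_le ((τ / (1 - τ)) • J) A
  nlinarith

/-! ### Moments -/

theorem tan_le {x : ℝ} (hx0 : 0 ≤ x) (hx1 : x < Real.pi / 2) :
    Real.tan x ≤ (Real.pi / 2 - x)⁻¹ := by
  have hy : 0 < Real.pi / 2 - x := by linarith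
  rcases hx0.eq_or_lt with h | h
  · rw [← h, Real.tan_zero]
    exact inv_nonneg.2 (by linarith [Real.pi_pos])
  · have h1 := Real.le_tan hy.le (by linarith)
    rw [Real.tan_pi_div_two_sub] at h1
    exact (le_inv_comm₀ hy (Real.tan_pos_of_pos_of_lt_pi_div_two h hx1)).1 h1

theorem moment {τ : ℝ} (h0 : 0 < τ) (h1 : τ ≤ 1 / 2) {γ : ℝ} (hγ : 0 < γ) {p : ℝ} (hp : 1 < p) :
    ∫ φ in Set.Ioc (0 : ℝ) 1, |γ * Ab τ * psi0 τ h0 h1 (φ : UnitAddCircle)| ^ p
      ≤ 2 * γ ^ p * τ ^ (1 - p) / (p - 1) := by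
  have hA := Ab_pos h0 h1
  have hpi := Real.pi_pos
  have hp0 : 0 < p := by linarith
  have e1 : ∀ φ : ℝ, |γ * Ab τ * psi0 τ h0 h1 (φ : UnitAddCircle)| ^ p
      = (fun v => (γ * |Tc τ v|) ^ p) (tw (φ : UnitAddCircle)) := by
    intro φ
    change |γ * Ab τ * (Tc τ (tw φ) / Ab τ)| ^ p = (γ * |Tc τ (tw φ)|) ^ p
    congr 1
    rw [show γ * Ab τ * (Tc τ (tw φ) / Ab τ) = γ * Tc τ (tw φ) by field_simp, abs_mul,
      abs_of_pos hγ]
  simp_rw [e1]
  have hgc : Continuous fun v => (γ * |Tc τ v|) ^ p :=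
    (continuous_const.mul (Tc_cont h0 h1).abs).rpow_const fun _ => Or.inr hp0.le
  rw [int_tw (fun v => (γ * |Tc τ v|) ^ p) hgc.measurable ((γ * Ab τ) ^ p) (fun v => by
    have h2 : 0 ≤ γ * |Tc τ v| := by positivity
    rw [Real.norm_of_nonneg (by positivity)]
    apply Real.rpow_le_rpow h2 _ hp0.le
    exact mul_le_mul_of_nonneg_left (Tc_le h0 h1 v) hγ.le)]
  have hi : ∀ a b : ℝ, IntervalIntegrable (fun v => (γ * |Tc τ v|) ^ p) volume a b :=
    fun a b => hgc.intervalIntegrable a b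
  rw [← intervalIntegral.integral_add_adjacent_intervals (hi (-(1 / 2)) 0) (hi 0 (1 / 2))]
  have e2 : ∫ v in (-(1 / 2 : ℝ))..0, (γ * |Tc τ v|) ^ p = ∫ v in (0 : ℝ)..(1 / 2), (γ * |Tc τ v|) ^ p := by
    have h2 := intervalIntegral.integral_comp_neg (a := (0 : ℝ)) (b := 1 / 2)
      (fun v => (γ * |Tc τ v|) ^ p)
    rw [neg_zero] at h2
    rw [← h2]
    congr 1
    ext v
    rw [Tc_neg, abs_neg]
  rw [e2]
  have e3 : ∫ v in (0 : ℝ)..(1 / 2), (γ * |Tc τ v|) ^ p
      ≤ ∫ v in (0 : ℝ)..(1 / 2), γ ^ p * (Real.pi / 2 - Real.pi * (1 - τ) * v) ^ (-p) := by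
    have hpos : ∀ v ∈ Set.Icc (0 : ℝ) (1 / 2), 0 < Real.pi / 2 - Real.pi * (1 - τ) * v := by
      intro v hv
      have : Real.pi * (1 - τ) * v ≤ Real.pi * (1 - τ) * (1 / 2) :=
        mul_le_mul_of_nonneg_left hv.2 (by nlinarith)
      nlinarith
    refine intervalIntegral.integral_mono_on (by norm_num) (hi _ _) ?_ fun v hv => ?_
    · apply ContinuousOn.intervalIntegrable
      rw [Set.uIcc_of_le (by norm_num)]
      refine continuousOn_const.mul (ContinuousOn.rpow_const (by fun_prop) fun v hv => ?_)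
      exact Or.inl (hpos v hv).ne'
    · have h2 := hpos v hv
      have h3 : |Tc τ v| ≤ (Real.pi / 2 - Real.pi * (1 - τ) * v)⁻¹ := by
        have h4 : 0 ≤ Real.pi * (1 - τ) * v := by
          have := hv.1
          have : 0 ≤ 1 - τ := by linarith
          positivity
        have h5 : Tc τ v = Real.tan (Real.pi * (1 - τ) * v) := by
          unfold Tc ar
          rw [cl_id (by linarith [hv.1]) hv.2]
        rw [h5, abs_of_nonneg (Real.tan_nonneg_of_nonneg_of_le_pi_div_two h4 (by linarith))]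
        exact tan_le h4 (by linarith)
      rw [Real.mul_rpow hγ.le (abs_nonneg _)]
      refine mul_le_mul_of_nonneg_left ?_ (by positivity)
      rw [Real.rpow_neg h2.le, ← Real.inv_rpow h2.le]
      exact Real.rpow_le_rpow (abs_nonneg _) h3 hp0.le
  have hτ1 : 0 < Real.pi * (1 - τ) := mul_pos hpi (by linarith)
  have e4 : ∫ v in (0 : ℝ)..(1 / 2), γ ^ p * (Real.pi / 2 - Real.pi * (1 - τ) * v) ^ (-p)
      = γ ^ p * ((Real.pi * (1 - τ))⁻¹ * (((Real.pi / 2) ^ (1 - p) - (Real.pi * τ / 2) ^ (1 - p))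
        / (1 - p))) := by
    rw [intervalIntegral.integral_const_mul]
    congr 1
    have h2 := intervalIntegral.integral_comp_sub_mul (a := (0 : ℝ)) (b := 1 / 2)
      (fun x : ℝ => x ^ (-p)) hτ1.ne' (Real.pi / 2)
    rw [h2, smul_eq_mul]
    congr 1
    rw [integral_rpow (Or.inr ⟨by linarith, by
      rw [Set.uIcc_of_le (by nlinarith)]
      intro h
      have := h.1
      nlinarith⟩)]
    have h3 : Real.pi / 2 - Real.pi * (1 - τ) * 0 = Real.pi / 2 := by ring
    have h4 : Real.pi / 2 - Real.pi * (1 - τ) * (1 / 2) = Real.pi * τ / 2 := by ring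
    have h5 : -p + 1 = 1 - p := by ring
    rw [h3, h4, h5]
  have hX : 0 < (Real.pi / 2) ^ (1 - p) := by positivity
  have e5 : ((Real.pi / 2) ^ (1 - p) - (Real.pi * τ / 2) ^ (1 - p)) / (1 - p)
      ≤ τ ^ (1 - p) / (p - 1) := by
    have h2 : (Real.pi * τ / 2) ^ (1 - p) ≤ τ ^ (1 - p) := by
      have h3 : Real.pi * τ / 2 = (Real.pi / 2) * τ := by ring
      rw [h3, Real.mul_rpow (by positivity) h0.le]
      have h4 : (Real.pi / 2) ^ (1 - p) ≤ 1 := by
        apply Real.rpow_le_one_of_one_le_of_nonpos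
        · have := Real.two_le_pi
          linarith
        · linarith
      have h5 : 0 < τ ^ (1 - p) := by positivity
      nlinarith
    rw [show ((Real.pi / 2) ^ (1 - p) - (Real.pi * τ / 2) ^ (1 - p)) / (1 - p)
      = ((Real.pi * τ / 2) ^ (1 - p) - (Real.pi / 2) ^ (1 - p)) / (p - 1) by
        rw [← neg_div_neg_eq]
        congr 1 <;> ring]
    apply div_le_div_of_nonneg_right _ (by linarith)
    linarith
  have hY : 0 ≤ τ ^ (1 - p) / (p - 1) := div_nonneg (by positivity) (by linarith)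
  have e6 : (Real.pi * (1 - τ))⁻¹ ≤ 1 := by
    apply inv_le_one_of_one_le₀
    have := Real.two_le_pi
    nlinarith
  have e7 : (Real.pi * (1 - τ))⁻¹ * (((Real.pi / 2) ^ (1 - p) - (Real.pi * τ / 2) ^ (1 - p))
        / (1 - p)) ≤ τ ^ (1 - p) / (p - 1) := by
    calc _ ≤ (Real.pi * (1 - τ))⁻¹ * (τ ^ (1 - p) / (p - 1)) :=
          mul_le_mul_of_nonneg_left e5 (by positivity)
      _ ≤ 1 * (τ ^ (1 - p) / (p - 1)) := mul_le_mul_of_nonneg_right e6 hY
      _ = _ := one_mul _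
  have hg : 0 < γ ^ p := by positivity
  rw [e4] at e3
  have e8 := mul_le_mul_of_nonneg_left e7 hg.le
  calc _ ≤ 2 * (γ ^ p * (τ ^ (1 - p) / (p - 1))) := by linarith
    _ = _ := by ring

/-- Level functions with law close to the Cauchy law. -/
theorem main : S_TAN2 := by
  intro γ τ hγ h0 h1
  refine ⟨psi0 τ h0 h1, γ * Ab τ, isLv τ h0 h1, mul_pos hγ (Ab_pos h0 h1), holder τ h0 h1,
    mean τ h0 h1, fun f F hf hF => tv h0 h1 γ f F hf hF, fun p hp _ => moment h0 h1 hγ hp⟩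

end

end Pool.Agent.U281.NP.Tan
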